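import Pool.Graph.R_pool_sql_team_seeded_1acbe0a2.Y121.CF.Main

/-!
The zeta function of a pair of endomorphisms.
-/

set_option autoImplicit false

open Module Polynomial Pool.Agent.Y121.CF

namespace Pool.Agent.H938.CC

variable {k : Type} [Field k] [CharZero k]

/-- the power sums of an endomorphism, shifted -/
noncomputable def psum {V : Type} [AddCommGroup V] [Module k V] (f : End k V) : PowerSeries k :=
  PowerSeries.mk fun n => LinearMap.trace k V (f ^ (n + 1))

theorem deriv_rev {V : Type} [AddCommGroup V] [Module k V] [FiniteDimensional k V] (f : End k V) :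
    PowerSeries.derivative k (f.charpoly.reverse : PowerSeries k) =
      -((f.charpoly.reverse : PowerSeries k) * psum f) := by
  classical
  set b := Module.finBasis k V
  have h1 : f.charpoly.reverse = (LinearMap.toMatrix b b f).charpolyRev := by
    rw [← Matrix.reverse_charpoly, LinearMap.charpoly_toMatrix]
  have h2 : psum f = ps (LinearMap.toMatrix b b f) := by
    ext n
    rw [psum, ps, PowerSeries.coeff_mk, PowerSeries.coeff_mk, LinearMap.toMatrix_pow,
      ← LinearMap.trace_eq_matrix_trace]
  rw [h1, h2]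
  exact deriv_charpolyRev _

omit [CharZero k] in
theorem rev_zero {V : Type} [AddCommGroup V] [Module k V] [FiniteDimensional k V] (f : End k V) :
    f.charpoly.reverse.coeff 0 = 1 := by
  rw [coeff_zero_reverse, f.charpoly_monic.leadingCoeff]

/-- two quotients with the same logarithmic derivative are equal -/
theorem quot_unique {Q P S R U : PowerSeries k}
    (h1 : PowerSeries.derivative k Q * P - Q * PowerSeries.derivative k P = Q * P * U)
    (h2 : PowerSeries.derivative k S * R - S * PowerSeries.derivative k R = S * R * U)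
    (hQ : PowerSeries.constantCoeff Q = 1) (hP : PowerSeries.constantCoeff P = 1)
    (hS : PowerSeries.constantCoeff S = 1) (hR : PowerSeries.constantCoeff R = 1) :
    Q * R = P * S := by
  have hT : PowerSeries.constantCoeff (P * S) ≠ 0 := by
    rw [map_mul, hP, hS, one_mul]
    exact one_ne_zero
  set E : PowerSeries k := (Q * R) * (P * S)⁻¹ with hE
  have hET : E * (P * S) = Q * R := by
    rw [hE, mul_assoc, PowerSeries.inv_mul_cancel _ hT, mul_one]
  have hne : P * S ≠ 0 := by
    intro h0
    apply hT
    rw [h0, map_zero]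
  have h3 : PowerSeries.derivative k E = 0 := by
    have h4 := congrArg (PowerSeries.derivative k) hET
    simp only [Derivation.leibniz, smul_eq_mul] at h4
    have h5 : PowerSeries.derivative k E * ((P * S) * (P * S)) = 0 := by
      linear_combination (P * S) * h4 + (PowerSeries.derivative k P * S + P * PowerSeries.derivative k S) *
        (-hET) + R * S * h1 - Q * P * h2
    exact (mul_eq_zero.1 h5).resolve_right (mul_ne_zero hne hne)
  have h6 : E = 1 := by
    apply PowerSeries.derivative.ext
    · rw [h3]
      have : PowerSeries.derivative k (PowerSeries.C (1 : k)) = 0 := PowerSeries.derivative_C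
      rw [map_one] at this
      exact this.symm
    · have h7 := congrArg PowerSeries.constantCoeff hET
      have h8 : PowerSeries.constantCoeff (P * S) = 1 := by rw [map_mul, hP, hS, one_mul]
      have h9 : PowerSeries.constantCoeff (Q * R) = 1 := by rw [map_mul, hQ, hR, one_mul]
      rw [map_mul PowerSeries.constantCoeff E, h8, h9, mul_one] at h7
      rw [h7, map_one]
  rw [h6, one_mul] at hET
  exact hET.symm

/-- the reduced zeta function of a pair of endomorphisms -/
theorem exists_reduced {V W : Type} [AddCommGroup V] [Module k V] [FiniteDimensional k V]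
    [AddCommGroup W] [Module k W] [FiniteDimensional k W] (f : End k V) (g : End k W)
    (χ : ℕ → ℤ) (hχ : ∀ n, LinearMap.trace k V (f ^ (n + 1)) - LinearMap.trace k W (g ^ (n + 1)) =
      (χ n : k)) :
    ∃ Q P : ℚ[X], IsCoprime Q P ∧ Q.coeff 0 = 1 ∧ P.coeff 0 = 1 ∧
      ((derivative Q * P - Q * derivative P : ℚ[X]) : PowerSeries ℚ) =
        ((Q * P : ℚ[X]) : PowerSeries ℚ) * PowerSeries.mk (fun n => (χ n : ℚ)) := by
  classical
  set R := f.charpoly.reverse with hR
  set S := g.charpoly.reverse with hS
  have hR0 : R.coeff 0 = 1 := rev_zero f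
  have hS0 : S.coeff 0 = 1 := rev_zero g
  have hRne : R ≠ 0 := by
    intro h
    rw [h, coeff_zero] at hR0
    exact zero_ne_one hR0
  set D := EuclideanDomain.gcd S R with hD
  have hDne : D ≠ 0 := fun h => hRne (EuclideanDomain.gcd_eq_zero_iff.1 h).2
  obtain ⟨q, hq⟩ := EuclideanDomain.gcd_dvd_left S R
  obtain ⟨p, hp⟩ := EuclideanDomain.gcd_dvd_right S R
  rw [← hD] at hq hp
  have hcop : IsCoprime q p := by
    have h1 := EuclideanDomain.gcd_eq_gcd_ab S R
    rw [← hD] at h1
    refine ⟨EuclideanDomain.gcdA S R, EuclideanDomain.gcdB S R, ?_⟩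
    apply mul_left_cancel₀ hDne
    rw [mul_one]
    have h2 : D * (EuclideanDomain.gcdA S R * q + EuclideanDomain.gcdB S R * p) =
        (D * q) * EuclideanDomain.gcdA S R + (D * p) * EuclideanDomain.gcdB S R := by ring
    rw [h2, ← hq, ← hp]
    exact h1.symm
  have hDp : D.coeff 0 * p.coeff 0 = 1 := by
    rw [← hR0, hp, mul_coeff_zero]
  have hDq : D.coeff 0 * q.coeff 0 = 1 := by
    rw [← hS0, hq, mul_coeff_zero]
  have hc : D.coeff 0 ≠ 0 := left_ne_zero_of_mul_eq_one hDp
  set c := D.coeff 0 with hcdef
  set Q := C c * q with hQ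
  set P := C c * p with hP
  have hQ0 : Q.coeff 0 = 1 := by rw [hQ, coeff_C_mul, hDq]
  have hP0 : P.coeff 0 = 1 := by rw [hP, coeff_C_mul, hDp]
  have hCu : IsUnit (C c) := isUnit_C.2 (isUnit_iff_ne_zero.2 hc)
  have hQP : IsCoprime Q P := (isCoprime_mul_unit_left hCu q p).2 hcop
  have hcross : Q * R = P * S := by
    rw [hQ, hP]
    conv_lhs => rw [hp]
    conv_rhs => rw [hq]
    ring
  have hcrossP : (Q : PowerSeries k) * (R : PowerSeries k) = (P : PowerSeries k) * (S : PowerSeries k) := by
    rw [← Polynomial.coe_mul, hcross, Polynomial.coe_mul]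
  have hunit : PowerSeries.constantCoeff (P : PowerSeries k) ≠ 0 := by
    rw [Polynomial.constantCoeff_coe, hP0]
    exact one_ne_zero
  set F : PowerSeries k := (P : PowerSeries k)⁻¹ * Q with hF
  have hPF : (P : PowerSeries k) * F = Q := by
    rw [hF, ← mul_assoc, PowerSeries.mul_inv_cancel _ hunit, one_mul]
  have hPne : (P : PowerSeries k) ≠ 0 := by
    intro h
    rw [h, map_zero] at hunit
    exact hunit rfl
  have hRPne : (R : PowerSeries k) ≠ 0 := by
    rw [Ne, ← Polynomial.coe_zero, Polynomial.coe_inj]
    exact hRne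
  set U : PowerSeries k := PowerSeries.mk (fun n => (χ n : k)) with hU
  have hUf : psum f - psum g = U := by
    ext n
    rw [map_sub, psum, psum, PowerSeries.coeff_mk, PowerSeries.coeff_mk, hU, PowerSeries.coeff_mk, hχ]
  have hFR : F * R = S := by
    apply mul_left_cancel₀ hPne
    rw [← mul_assoc, hPF, hcrossP]
  have hlog : PowerSeries.derivative k F = F * U := by
    have h1 := congrArg (PowerSeries.derivative k) hFR
    rw [Derivation.leibniz, smul_eq_mul, smul_eq_mul, hR, hS, deriv_rev, deriv_rev, ← hR, ← hS,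
      ← hFR] at h1
    have h2 : (R : PowerSeries k) * (PowerSeries.derivative k F - F * U) = 0 := by
      rw [← hUf]
      linear_combination h1
    rcases mul_eq_zero.1 h2 with h | h
    · exact absurd h hRPne
    · exact sub_eq_zero.1 h
  have hF0 : PowerSeries.coeff 0 F = 1 := by
    have h1 := congrArg PowerSeries.constantCoeff hPF
    rw [map_mul, Polynomial.constantCoeff_coe, Polynomial.constantCoeff_coe, hP0, hQ0, one_mul] at h1
    rw [PowerSeries.coeff_zero_eq_constantCoeff_apply, h1]
  have hrat := rat_of_log (F := F) (U := -U) (by rw [mul_neg, neg_neg]; exact hlog) hF0 (fun n =>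
    ⟨-(χ n : ℚ), by rw [map_neg, hU, PowerSeries.coeff_mk, Rat.cast_neg, Rat.cast_intCast]⟩)
  obtain ⟨hA, hB⟩ := rational_of_quot hQP hP0 hPF hrat
  have hlift : ∀ G : k[X], (∀ n, ∃ q : ℚ, G.coeff n = (q : k)) →
      ∃ G₀ : ℚ[X], G₀.map (algebraMap ℚ k) = G := by
    intro G hG
    have h3 : G ∈ lifts (algebraMap ℚ k) := by
      rw [lifts_iff_coeff_lifts]
      intro n
      obtain ⟨q, hq⟩ := hG n
      exact ⟨q, by rw [hq, eq_ratCast]⟩
    exact (mem_lifts G).1 h3
  obtain ⟨Q₀, hQ₀⟩ := hlift _ hA
  obtain ⟨P₀, hP₀⟩ := hlift _ hB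
  have hinj := (algebraMap ℚ k).injective
  refine ⟨Q₀, P₀, ?_, ?_, ?_, ?_⟩
  · rw [← isCoprime_map (algebraMap ℚ k), hQ₀, hP₀]
    exact hQP
  · apply hinj
    rw [← coeff_map, hQ₀, hQ0, map_one]
  · apply hinj
    rw [← coeff_map, hP₀, hP0, map_one]
  · have h1 : PowerSeries.derivative k (Q : PowerSeries k) * (P : PowerSeries k) -
        (Q : PowerSeries k) * PowerSeries.derivative k (P : PowerSeries k) =
        (Q : PowerSeries k) * (P : PowerSeries k) * U := by
      have h2 := congrArg (PowerSeries.derivative k) hPF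
      rw [Derivation.leibniz, smul_eq_mul, smul_eq_mul, hlog] at h2
      rw [← h2, ← hPF]
      ring
    have h3 : (PowerSeries.map (algebraMap ℚ k)) ((derivative Q₀ * P₀ - Q₀ * derivative P₀ : ℚ[X]) :
        PowerSeries ℚ) = (PowerSeries.map (algebraMap ℚ k)) (((Q₀ * P₀ : ℚ[X]) : PowerSeries ℚ) *
          PowerSeries.mk (fun n => (χ n : ℚ))) := by
      rw [map_mul, ← Polynomial.polynomial_map_coe, ← Polynomial.polynomial_map_coe, Polynomial.map_sub,
        Polynomial.map_mul, Polynomial.map_mul, Polynomial.map_mul, ← Polynomial.derivative_map,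
        ← Polynomial.derivative_map, hQ₀, hP₀]
      have h4 : PowerSeries.map (algebraMap ℚ k) (PowerSeries.mk (fun n => (χ n : ℚ))) = U := by
        ext n
        rw [PowerSeries.coeff_map, PowerSeries.coeff_mk, hU, PowerSeries.coeff_mk, eq_ratCast,
          Rat.cast_intCast]
      rw [h4, Polynomial.coe_sub, Polynomial.coe_mul (derivative Q), Polynomial.coe_mul Q (derivative P),
        Polynomial.coe_mul Q P, ← PowerSeries.derivative_coe, ← PowerSeries.derivative_coe]
      exact h1
    ext n
    have h5 := congrArg (PowerSeries.coeff n) h3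
    rw [PowerSeries.coeff_map, PowerSeries.coeff_map] at h5
    exact hinj h5

end Pool.Agent.H938.CC
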