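import Pool.Agent.H938.CC.Mod
import Pool.Agent.H938.CC.Zeta

/-!
The distance of the even projector, and general elements of an algebra.
-/

set_option autoImplicit false

open Module Polynomial Pool.Agent.NH52.MB

namespace Pool.Agent.H938.CC

variable {k A : Type} [Field k] [CharZero k] [Ring A] [Algebra k A]

/-- `V` and `W` have the composition factors of `C ⊕ X` and `C ⊕ Y`, where `X` and `Y` are disjoint -/
structure Split (k A V W C X Y : Type) [Field k] [Ring A] [Algebra k A]
    [AddCommGroup V] [Module k V] [Module A V] [IsScalarTower k A V]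
    [AddCommGroup W] [Module k W] [Module A W] [IsScalarTower k A W]
    [AddCommGroup C] [Module k C] [Module A C] [IsScalarTower k A C]
    [AddCommGroup X] [Module k X] [Module A X] [IsScalarTower k A X]
    [AddCommGroup Y] [Module k Y] [Module A Y] [IsScalarTower k A Y] : Prop where
  trV : ∀ a : A, tr k V a = tr k C a + tr k X a
  trW : ∀ a : A, tr k W a = tr k C a + tr k Y a
  dimV : finrank k V = finrank k C + finrank k X
  dimW : finrank k W = finrank k C + finrank k Y
  hom : ∀ f : X →ₗ[A] Y, f = 0

omit [CharZero k] in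
theorem exists_split (V W : Type) [AddCommGroup V] [Module k V] [Module A V] [IsScalarTower k A V]
    [FiniteDimensional k V] [AddCommGroup W] [Module k W] [Module A W] [IsScalarTower k A W]
    [FiniteDimensional k W] :
    ∃ (C X Y : Type) (_ : AddCommGroup C) (_ : Module k C) (_ : Module A C) (_ : IsScalarTower k A C)
      (_ : FiniteDimensional k C) (_ : IsSemisimpleModule A C)
      (_ : AddCommGroup X) (_ : Module k X) (_ : Module A X) (_ : IsScalarTower k A X)
      (_ : FiniteDimensional k X) (_ : IsSemisimpleModule A X)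
      (_ : AddCommGroup Y) (_ : Module k Y) (_ : Module A Y) (_ : IsScalarTower k A Y)
      (_ : FiniteDimensional k Y) (_ : IsSemisimpleModule A Y), Split k A V W C X Y := by
  obtain ⟨V', _, _, _, _, _, _, hV, hV'⟩ := t_SS k A V
  obtain ⟨W', _, _, _, _, _, _, hW, hW'⟩ := t_SS k A W
  obtain ⟨C, X, Y, _, _, _, _, _, _, _, _, _, _, _, _, _, _, _, _, _, _, h1, h2, h3, h4, h5⟩ :=
    common_part (k := k) (A := A) _ V' W' rfl
  exact ⟨C, X, Y, inferInstance, inferInstance, inferInstance, inferInstance, inferInstance,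
    inferInstance, inferInstance, inferInstance, inferInstance, inferInstance, inferInstance,
    inferInstance, inferInstance, inferInstance, inferInstance, inferInstance, inferInstance,
    inferInstance, fun a => by rw [← hV', h1], fun a => by rw [← hW', h2], by rw [← hV, h3],
    by rw [← hW, h4], h5⟩

theorem charpoly_act {V C X : Type} [AddCommGroup V] [Module k V] [Module A V]
    [IsScalarTower k A V] [FiniteDimensional k V] [AddCommGroup C] [Module k C] [Module A C]
    [IsScalarTower k A C] [FiniteDimensional k C] [AddCommGroup X] [Module k X] [Module A X]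
    [IsScalarTower k A X] [FiniteDimensional k X]
    (htr : ∀ a : A, tr k V a = tr k C a + tr k X a)
    (hd : finrank k V = finrank k C + finrank k X) (a : A) :
    (Algebra.lsmul k k V a).charpoly =
      (Algebra.lsmul k k C a).charpoly * (Algebra.lsmul k k X a).charpoly := by
  rw [← LinearMap.charpoly_prodMap]
  have h1 : finrank k V = finrank k (C × X) := by
    rw [Module.finrank_prod, hd]
  let b₁ := Module.finBasisOfFinrankEq k V h1
  let b₂ := Module.finBasisOfFinrankEq k (C × X) rfl
  rw [← LinearMap.charpoly_toMatrix _ b₁, ← LinearMap.charpoly_toMatrix _ b₂]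
  refine Pool.Agent.TH658.Eq.charpoly_eq_of_traces _ _ fun n => ?_
  rw [LinearMap.toMatrix_pow, LinearMap.toMatrix_pow, ← LinearMap.trace_eq_matrix_trace,
    ← LinearMap.trace_eq_matrix_trace]
  have h2 : ((Algebra.lsmul k k C a).prodMap (Algebra.lsmul k k X a)) ^ n =
      ((Algebra.lsmul k k C a) ^ n).prodMap ((Algebra.lsmul k k X a) ^ n) := by
    induction n with
    | zero => rfl
    | succ n ih =>
      rw [pow_succ, ih, pow_succ, pow_succ]
      rfl
  rw [h2, LinearMap.trace_prodMap', ← map_pow, ← map_pow, ← map_pow]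
  exact htr _

section main

variable {V W C X Y : Type}
    [AddCommGroup V] [Module k V] [Module A V] [IsScalarTower k A V] [FiniteDimensional k V]
    [AddCommGroup W] [Module k W] [Module A W] [IsScalarTower k A W] [FiniteDimensional k W]
    [AddCommGroup C] [Module k C] [Module A C] [IsScalarTower k A C] [FiniteDimensional k C]
    [AddCommGroup X] [Module k X] [Module A X] [IsScalarTower k A X] [FiniteDimensional k X]
    [AddCommGroup Y] [Module k Y] [Module A Y] [IsScalarTower k A Y] [FiniteDimensional k Y]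

/-- the rank of the difference of the even projector of `(V ⊕ W)^N` and of a matrix -/
noncomputable def errorRank (k : Type) [Field k] {A : Type} [Ring A] [Algebra k A] (V W : Type)
    [AddCommGroup V] [Module k V] [Module A V] [IsScalarTower k A V]
    [AddCommGroup W] [Module k W] [Module A W] [IsScalarTower k A W] {N : ℕ}
    (F : Matrix (Fin N) (Fin N) A) : ℕ :=
  finrank k (LinearMap.range (1 - actN k V F)) + finrank k (LinearMap.range (actN k W F))

theorem lower (s : Split k A V W C X Y) {N : ℕ} (F : Matrix (Fin N) (Fin N) A) :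
    N * finrank k C ≤ errorRank k V W F := by
  have h1 : (actN k C F).charpoly ∣ (actN k V F).charpoly := by
    rw [charpoly_actN s.trV s.dimV F]
    exact dvd_mul_right _ _
  have h2 : (actN k C F).charpoly ∣ (actN k W F).charpoly := by
    rw [charpoly_actN s.trW s.dimW F]
    exact dvd_mul_right _ _
  have h3 := degree_le_rank _ _ h1 h2
  rw [LinearMap.charpoly_natDegree, Module.finrank_pi_fintype, Finset.sum_const, Finset.card_univ,
    Fintype.card_fin, smul_eq_mul] at h3
  exact h3

theorem exists_idem [IsSemisimpleModule A X] [IsSemisimpleModule A Y] (s : Split k A V W C X Y) :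
    ∃ e : A, (∀ v : V, e • e • v = e • v) ∧ (∀ w : W, e • e • w = e • w) ∧
      (∀ x : X, e • x = x) ∧ ∀ y : Y, e • y = 0 := by
  obtain ⟨a, ha, ha'⟩ := separate k s.hom
  have hne : (Algebra.lsmul k k V a).charpoly * (Algebra.lsmul k k W a).charpoly ≠ 0 :=
    mul_ne_zero (LinearMap.charpoly_monic _).ne_zero (LinearMap.charpoly_monic _).ne_zero
  obtain ⟨p, hp1, hp0, hp⟩ := exists_idem_poly hne
  have key : ∀ (U : Type) [AddCommGroup U] [Module k U] [Module A U] [IsScalarTower k A U]
      [FiniteDimensional k U], (Algebra.lsmul k k U a).charpoly ∣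
        (Algebra.lsmul k k V a).charpoly * (Algebra.lsmul k k W a).charpoly →
        ∀ u : U, aeval a p • aeval a p • u = aeval a p • u := by
    intro U _ _ _ _ _ hU u
    obtain ⟨q, hq⟩ := hU.trans hp
    have h1 : aeval (Algebra.lsmul k k U a) (p * (1 - p)) = 0 := by
      rw [hq, map_mul, LinearMap.aeval_self_charpoly, zero_mul]
    rw [aeval_algHom_apply] at h1
    have h2 : aeval a (p * (1 - p)) • u = 0 := LinearMap.congr_fun h1 u
    rw [map_mul, map_sub, map_one, mul_sub, mul_one, sub_smul, sub_eq_zero, mul_smul] at h2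
    exact h2.symm
  refine ⟨aeval a p, key V (dvd_mul_right _ _), key W (dvd_mul_left _ _), ?_, ?_⟩
  · intro x
    have h1 : Algebra.lsmul k k X (aeval a p) = 1 := by
      rw [← aeval_algHom_apply]
      have h2 : Algebra.lsmul k k X a = algebraMap k (End k X) 1 := by
        rw [map_one]
        exact LinearMap.ext ha
      rw [h2, aeval_algebraMap_apply, coe_aeval_eq_eval, hp1, map_one]
    exact LinearMap.congr_fun h1 x
  · intro y
    have h1 : Algebra.lsmul k k Y (aeval a p) = 0 := by
      rw [← aeval_algHom_apply]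
      have h2 : Algebra.lsmul k k Y a = algebraMap k (End k Y) 0 := by
        rw [map_zero]
        exact LinearMap.ext ha'
      rw [h2, aeval_algebraMap_apply, coe_aeval_eq_eval, hp0, map_zero]
    exact LinearMap.congr_fun h1 y

theorem upper (s : Split k A V W C X Y) {e : A} (h₁ : ∀ v : V, e • e • v = e • v)
    (h₂ : ∀ w : W, e • e • w = e • w) (h₃ : ∀ x : X, e • x = x) (h₄ : ∀ y : Y, e • y = 0) (N : ℕ) :
    errorRank k V W (Matrix.diagonal (fun _ : Fin N => e)) = N * finrank k C := by
  have key : ∀ (U : Type) [AddCommGroup U] [Module k U] [Module A U] [IsScalarTower k A U],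
      (∀ u : U, e • e • u = e • u) → actN k U (Matrix.diagonal (fun _ : Fin N => e)) *
        actN k U (Matrix.diagonal (fun _ : Fin N => e)) =
          actN k U (Matrix.diagonal (fun _ : Fin N => e)) := by
    intro U _ _ _ _ hU
    have h5 : ∀ (v : Fin N → U) (i : Fin N),
        actN k U (Matrix.diagonal (fun _ : Fin N => e)) v i = e • v i := by
      intro v i
      rw [actN_apply, Finset.sum_eq_single i]
      · rw [Matrix.diagonal_apply_eq]
      · intro j _ hj
        rw [Matrix.diagonal_apply_ne _ (Ne.symm hj), zero_smul]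
      · intro h
        exact absurd (Finset.mem_univ i) h
    apply LinearMap.ext
    intro v
    funext i
    rw [Module.End.mul_apply, h5, h5, hU]
  have t1 := finrank_range_idem (key V h₁)
  have t2 := finrank_range_idem (key W h₂)
  have t3 := finrank_range_one_sub (key V h₁)
  rw [trace_actN] at t1 t2
  have hdiag : ∀ i : Fin N, Matrix.diagonal (fun _ : Fin N => e) i i = e := fun i =>
    Matrix.diagonal_apply_eq _ _
  simp only [hdiag, Finset.sum_const, Finset.card_univ, Fintype.card_fin, nsmul_eq_mul] at t1 t2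
  have hX : tr k X e = (finrank k X : k) := by
    unfold tr
    have : Algebra.lsmul k k X e = 1 := LinearMap.ext h₃
    rw [this, LinearMap.trace_one]
  have hY : tr k Y e = 0 := by
    unfold tr
    have : Algebra.lsmul k k Y e = 0 := LinearMap.ext h₄
    rw [this, map_zero]
  rw [s.trV, hX] at t1
  rw [s.trW, hY, add_zero] at t2
  rw [Module.finrank_pi_fintype, Finset.sum_const, Finset.card_univ, Fintype.card_fin, smul_eq_mul,
    s.dimV] at t3
  have t4 := congrArg (Nat.cast (R := k)) t3
  rw [Nat.cast_add, Nat.cast_mul, Nat.cast_add, t1] at t4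
  have t5 : ((errorRank k V W (Matrix.diagonal (fun _ : Fin N => e)) : ℕ) : k) =
      ((N * finrank k C : ℕ) : k) := by
    rw [errorRank, Nat.cast_add, Nat.cast_mul, t2]
    linear_combination t4
  exact_mod_cast t5

theorem isLeast_error [IsSemisimpleModule A X] [IsSemisimpleModule A Y] (s : Split k A V W C X Y)
    (N : ℕ) : IsLeast {r : ℕ | ∃ F : Matrix (Fin N) (Fin N) A, errorRank k V W F = r}
      (N * finrank k C) := by
  obtain ⟨e, h₁, h₂, h₃, h₄⟩ := exists_idem s
  refine ⟨⟨_, upper s h₁ h₂ h₃ h₄ N⟩, ?_⟩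
  rintro r ⟨F, rfl⟩
  exact lower s F

omit [CharZero k] in
theorem isCoprime_comp {P Q R : k[X]} (h : IsCoprime P Q) : IsCoprime (P.comp R) (Q.comp R) := by
  obtain ⟨a, b, hab⟩ := h
  refine ⟨a.comp R, b.comp R, ?_⟩
  rw [← mul_comp, ← mul_comp, ← add_comp, hab, one_comp]

theorem coprime_of_nullity {P Q G : k[X]} {a b : ℕ} (hP : P.Monic) (hQ : Q.Monic) (hG : G.Monic)
    (ha : P.natDegree + G.natDegree = a) (hb : Q.natDegree + G.natDegree = b)
    (h : finrank k (LinearMap.ker (syl (G * P) (G * Q) a b).mulVecLin) ≤ G.natDegree) :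
    IsCoprime P Q := by
  classical
  set D := EuclideanDomain.gcd P Q with hD
  have hDne : D ≠ 0 := fun h0 => hP.ne_zero (EuclideanDomain.gcd_eq_zero_iff.1 h0).1
  obtain ⟨p, hp⟩ := EuclideanDomain.gcd_dvd_left P Q
  obtain ⟨q, hq⟩ := EuclideanDomain.gcd_dvd_right P Q
  rw [← hD] at hp hq
  have hcop : IsCoprime p q := by
    have h1 := EuclideanDomain.gcd_eq_gcd_ab P Q
    rw [← hD] at h1
    refine ⟨EuclideanDomain.gcdA P Q, EuclideanDomain.gcdB P Q, ?_⟩
    apply mul_left_cancel₀ hDne
    rw [mul_one]
    have h2 : D * (EuclideanDomain.gcdA P Q * p + EuclideanDomain.gcdB P Q * q) =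
        (D * p) * EuclideanDomain.gcdA P Q + (D * q) * EuclideanDomain.gcdB P Q := by ring
    rw [h2, ← hp, ← hq]
    exact h1.symm
  have hpne : p ≠ 0 := by
    intro h0
    rw [h0, mul_zero] at hp
    exact hP.ne_zero hp
  have hqne : q ≠ 0 := by
    intro h0
    rw [h0, mul_zero] at hq
    exact hQ.ne_zero hq
  have hdP : P.natDegree = D.natDegree + p.natDegree := by
    conv_lhs => rw [hp]
    exact natDegree_mul hDne hpne
  have hdQ : Q.natDegree = D.natDegree + q.natDegree := by
    conv_lhs => rw [hq]
    exact natDegree_mul hDne hqne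
  have hdG : (G * D).natDegree = G.natDegree + D.natDegree := natDegree_mul hG.ne_zero hDne
  have h3 := nullity (P' := p) (Q' := q) (G := G * D) (a := a) (b := b)
    (c := G.natDegree + D.natDegree) (mul_ne_zero hG.ne_zero hDne) hcop hpne hqne (by omega) (by omega)
    hdG
  have h4 : p * (G * D) = G * P := by
    conv_rhs => rw [hp]
    ring
  have h5 : q * (G * D) = G * Q := by
    conv_rhs => rw [hq]
    ring
  rw [h4, h5] at h3
  have h6 : D.natDegree = 0 := by omega
  have h7 : IsUnit D := by
    rw [isUnit_iff_degree_eq_zero, degree_eq_natDegree hDne, h6]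
    rfl
  rw [hp, hq]
  exact (isCoprime_mul_unit_left h7 p q).2 hcop

/-- general elements -/
theorem generic [IsSemisimpleModule A X] [IsSemisimpleModule A Y] (s : Split k A V W C X Y) {m : ℕ}
    (z : Fin m → A) (hz : Submodule.span k (Set.range z) = ⊤) :
    ∃ F : MvPolynomial (Fin m) k, F ≠ 0 ∧ ∀ y, MvPolynomial.eval y F ≠ 0 →
      (Algebra.lsmul k k V (∑ i, y i • z i)).charpoly.coeff 0 ≠ 0 ∧
      (Algebra.lsmul k k W (∑ i, y i • z i)).charpoly.coeff 0 ≠ 0 ∧
      IsCoprime (Algebra.lsmul k k X (∑ i, y i • z i)).charpoly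
        (Algebra.lsmul k k Y (∑ i, y i • z i)).charpoly := by
  obtain ⟨e, h₁, h₂, h₃, h₄⟩ := exists_idem s
  obtain ⟨x₀, hx₀⟩ : ∃ x : Fin m → k, ∑ i, x i • z i = e + 1 := by
    have : e + 1 ∈ Submodule.span k (Set.range z) := by
      rw [hz]
      exact Submodule.mem_top
    exact (Submodule.mem_span_range_iff_exists_fun k).1 this
  have hshift : ∀ (U : Type) [AddCommGroup U] [Module k U] [Module A U] [IsScalarTower k A U]
      [FiniteDimensional k U], (Algebra.lsmul k k U (e + 1)).charpoly =
        (Algebra.lsmul k k U e).charpoly.comp (Polynomial.X + Polynomial.C (-1)) := by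
    intro U _ _ _ _ _
    rw [← LinearMap.charpoly_sub_smul, neg_smul, one_smul, sub_neg_eq_add, map_add, map_one]
  have hcoeff : ∀ (U : Type) [AddCommGroup U] [Module k U] [Module A U] [IsScalarTower k A U]
      [FiniteDimensional k U], (∀ u : U, e • e • u = e • u) →
        (Algebra.lsmul k k U (e + 1)).charpoly.coeff 0 ≠ 0 := by
    intro U _ _ _ _ _ hU
    rw [hshift, coeff_zero_eq_eval_zero, eval_comp, eval_add, eval_X, eval_C, zero_add]
    intro h0
    have h5 : (Algebra.lsmul k k U e).charpoly.IsRoot (-1) := h0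
    rw [← Module.End.hasEigenvalue_iff_isRoot_charpoly] at h5
    obtain ⟨u, hu⟩ := h5.exists_hasEigenvector
    have h6 : e • u = (-1 : k) • u := hu.apply_eq_smul
    have h7 := hU u
    rw [h6, smul_comm e (-1 : k) u, h6, smul_smul, neg_one_mul, neg_neg, one_smul] at h7
    have h8 : (2 : k) • u = 0 := by
      rw [two_smul]
      nth_rewrite 1 [h7]
      rw [neg_smul, one_smul, neg_add_cancel]
    exact hu.2 ((smul_eq_zero.1 h8).resolve_left two_ne_zero)
  let φ : (Fin m → k) →ₗ[k] End k V :=
    (Algebra.lsmul k k V : A →ₐ[k] End k V).toLinearMap ∘ₗ Fintype.linearCombination k z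
  let ψ : (Fin m → k) →ₗ[k] End k W :=
    (Algebra.lsmul k k W : A →ₐ[k] End k W).toLinearMap ∘ₗ Fintype.linearCombination k z
  have hφ : ∀ y, φ y = Algebra.lsmul k k V (∑ i, y i • z i) := fun y => rfl
  have hψ : ∀ y, ψ y = Algebra.lsmul k k W (∑ i, y i • z i) := fun y => rfl
  obtain ⟨F, hF, hF'⟩ := semicont φ ψ x₀ (by rw [hφ, hx₀]; exact hcoeff V h₁)
    (by rw [hψ, hx₀]; exact hcoeff W h₂)
  refine ⟨F, hF, fun y hy => ?_⟩
  obtain ⟨g1, g2, g3⟩ := hF' y hy
  rw [hφ] at g1
  rw [hψ] at g2
  refine ⟨g1, g2, ?_⟩
  rw [hφ, hψ, hφ, hψ, hx₀, charpoly_act s.trV s.dimV, charpoly_act s.trW s.dimW,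
    charpoly_act s.trV s.dimV (e + 1), charpoly_act s.trW s.dimW (e + 1)] at g3
  refine coprime_of_nullity (LinearMap.charpoly_monic _) (LinearMap.charpoly_monic _)
    (LinearMap.charpoly_monic (Algebra.lsmul k k C (∑ i, y i • z i))) ?_ ?_ (g3.trans ?_)
  · rw [LinearMap.charpoly_natDegree, LinearMap.charpoly_natDegree, s.dimV, add_comm]
  · rw [LinearMap.charpoly_natDegree, LinearMap.charpoly_natDegree, s.dimW, add_comm]
  · apply le_of_eq
    rw [mul_comm, mul_comm (Algebra.lsmul k k C (e + 1)).charpoly
      (Algebra.lsmul k k Y (e + 1)).charpoly]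
    rw [nullity (c := finrank k C) (LinearMap.charpoly_monic _).ne_zero ?_
      (LinearMap.charpoly_monic _).ne_zero (LinearMap.charpoly_monic _).ne_zero ?_ ?_ ?_]
    · rw [LinearMap.charpoly_natDegree]
    · rw [hshift, hshift]
      apply isCoprime_comp
      have h5 : Algebra.lsmul k k X e = 1 := LinearMap.ext h₃
      have h6 : Algebra.lsmul k k Y e = 0 := LinearMap.ext h₄
      rw [h5, h6, LinearMap.charpoly_one, LinearMap.charpoly_zero]
      have h7 : IsCoprime (Polynomial.X - 1 : k[X]) Polynomial.X := ⟨-1, 1, by ring⟩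
      exact h7.pow
    · rw [LinearMap.charpoly_natDegree, s.dimV, add_comm]
    · rw [LinearMap.charpoly_natDegree, s.dimW, add_comm]
    · rw [LinearMap.charpoly_natDegree]

/-- the distance for single operators -/
theorem isLeast_one [IsSemisimpleModule A X] [IsSemisimpleModule A Y] (s : Split k A V W C X Y) :
    IsLeast {r : ℕ | ∃ a : A, finrank k (LinearMap.range (1 - Algebra.lsmul k k V a)) +
      finrank k (LinearMap.range (Algebra.lsmul k k W a)) = r} (finrank k C) := by
  constructor
  · obtain ⟨e, h₁, h₂, h₃, h₄⟩ := exists_idem s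
    refine ⟨e, ?_⟩
    have i1 : Algebra.lsmul k k V e * Algebra.lsmul k k V e = Algebra.lsmul k k V e :=
      LinearMap.ext h₁
    have i2 : Algebra.lsmul k k W e * Algebra.lsmul k k W e = Algebra.lsmul k k W e :=
      LinearMap.ext h₂
    have t1 := finrank_range_idem i1
    have t2 := finrank_range_idem i2
    have t3 := finrank_range_one_sub i1
    have hX : tr k X e = (finrank k X : k) := by
      unfold tr
      have : Algebra.lsmul k k X e = 1 := LinearMap.ext h₃
      rw [this, LinearMap.trace_one]
    have hY : tr k Y e = 0 := by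
      unfold tr
      have : Algebra.lsmul k k Y e = 0 := LinearMap.ext h₄
      rw [this, map_zero]
    have u1 := s.trV e
    have u2 := s.trW e
    rw [hX] at u1
    rw [hY, add_zero] at u2
    have t4 := congrArg (Nat.cast (R := k)) t3
    rw [s.dimV, Nat.cast_add, Nat.cast_add, t1] at t4
    have u1' : LinearMap.trace k V (Algebra.lsmul k k V e) = tr k C e + (finrank k X : k) := u1
    have u2' : LinearMap.trace k W (Algebra.lsmul k k W e) = tr k C e := u2
    have t5 : ((finrank k (LinearMap.range (1 - Algebra.lsmul k k V e)) +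
        finrank k (LinearMap.range (Algebra.lsmul k k W e)) : ℕ) : k) = ((finrank k C : ℕ) : k) := by
      rw [Nat.cast_add, t2, u2']
      rw [u1'] at t4
      linear_combination t4
    exact_mod_cast t5
  · rintro r ⟨a, rfl⟩
    have h1 : (Algebra.lsmul k k C a).charpoly ∣ (Algebra.lsmul k k V a).charpoly := by
      rw [charpoly_act s.trV s.dimV a]
      exact dvd_mul_right _ _
    have h2 : (Algebra.lsmul k k C a).charpoly ∣ (Algebra.lsmul k k W a).charpoly := by
      rw [charpoly_act s.trW s.dimW a]
      exact dvd_mul_right _ _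
    have h3 := degree_le_rank _ _ h1 h2
    rwa [LinearMap.charpoly_natDegree] at h3

end main

end Pool.Agent.H938.CC
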