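import Pool.Agent.H938.CC.Gen

/-!
The distance of the even Künneth projector from the algebraic operators of a smooth proper dg category.
-/

set_option autoImplicit false

open Module Polynomial

namespace Pool.Agent.H938.CC

/-- `K_0(𝒜ᵒᵖ ⊗ 𝒜)` with the composition, the even and the odd part of `HP_±(𝒜)` or of
`TP_±(𝒜)[1/p]` over the coefficient field `K`, and the trace formula -/
structure NCData (K : Type) [Field K] where
  /-- `K_0(𝒜ᵒᵖ ⊗ 𝒜)` -/
  Corr : Type
  [ring : Ring Corr]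
  /-- the even part -/
  Plus : Type
  [addPlus : AddCommGroup Plus]
  [modPlus : Module K Plus]
  [finPlus : FiniteDimensional K Plus]
  /-- the odd part -/
  Minus : Type
  [addMinus : AddCommGroup Minus]
  [modMinus : Module K Minus]
  [finMinus : FiniteDimensional K Minus]
  /-- the action on the even part -/
  actPlus : Corr →+* End K Plus
  /-- the action on the odd part -/
  actMinus : Corr →+* End K Minus
  /-- the intersection number with the diagonal -/
  lefschetz : Corr → ℤ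
  trace_formula : ∀ z, LinearMap.trace K Plus (actPlus z) - LinearMap.trace K Minus (actMinus z) =
    (lefschetz z : K)

/-- finite-dimensional semisimple modules over a `K`-algebra -/
structure SMod (K A : Type) [Field K] [Ring A] [Algebra K A] where
  Car : Type
  [acg : AddCommGroup Car]
  [mod : Module K Car]
  [modA : Module A Car]
  [tower : IsScalarTower K A Car]
  [fin : FiniteDimensional K Car]
  [ss : IsSemisimpleModule A Car]

attribute [instance] SMod.acg SMod.mod SMod.modA SMod.tower SMod.fin SMod.ss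

namespace NCData

attribute [instance] ring addPlus modPlus finPlus addMinus modMinus finMinus

variable {K : Type} [Field K] (𝒜 : NCData K)

/-- the operators of a bimodule class on the even and on the odd part -/
def act (z : 𝒜.Corr) : End K 𝒜.Plus × End K 𝒜.Minus := (𝒜.actPlus z, 𝒜.actMinus z)

/-- the `K`-combinations of the operators of the elements of `K_0(𝒜ᵒᵖ ⊗ 𝒜)`; the set of these
operators is closed under products -/
def Alg : Subalgebra K (End K 𝒜.Plus × End K 𝒜.Minus) := Algebra.adjoin K (Set.range 𝒜.act)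

theorem mem_alg {u : End K 𝒜.Plus × End K 𝒜.Minus} :
    u ∈ 𝒜.Alg ↔ u ∈ Submodule.span K (Set.range 𝒜.act) := by
  have h1 : Submonoid.closure (Set.range 𝒜.act) ≤
      MonoidHom.mrange (𝒜.actPlus.prod 𝒜.actMinus : 𝒜.Corr →* _) := by
    rw [Submonoid.closure_le]
    rintro _ ⟨z, rfl⟩
    exact ⟨z, rfl⟩
  have h2 : (Submonoid.closure (Set.range 𝒜.act) : Set _) = Set.range 𝒜.act := by
    apply Set.Subset.antisymm
    · intro x hx
      exact h1 hx
    · exact Submonoid.subset_closure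
  rw [Alg, ← Subalgebra.mem_toSubmodule, Algebra.adjoin_eq_span, h2]

/-- the algebra of the `K`-combinations, as a type -/
def AlgT : Type := 𝒜.Alg

noncomputable instance instRingAlgT : Ring 𝒜.AlgT := Subalgebra.toRing 𝒜.Alg

noncomputable instance instAlgebraAlgT : Algebra K 𝒜.AlgT := Subalgebra.algebra 𝒜.Alg

/-- the inclusion -/
noncomputable def incl : 𝒜.AlgT →ₐ[K] End K 𝒜.Plus × End K 𝒜.Minus := 𝒜.Alg.val

theorem incl_injective : Function.Injective 𝒜.incl := Subtype.val_injective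

/-- the action on the even part -/
noncomputable def toPlus : 𝒜.AlgT →ₐ[K] End K 𝒜.Plus := (AlgHom.fst K _ _).comp 𝒜.incl

/-- the action on the odd part -/
noncomputable def toMinus : 𝒜.AlgT →ₐ[K] End K 𝒜.Minus := (AlgHom.snd K _ _).comp 𝒜.incl

noncomputable instance instModulePlus : Module 𝒜.AlgT 𝒜.Plus := Module.compHom _ 𝒜.toPlus.toRingHom
noncomputable instance instModuleMinus : Module 𝒜.AlgT 𝒜.Minus :=
  Module.compHom _ 𝒜.toMinus.toRingHom

instance instTowerPlus : IsScalarTower K 𝒜.AlgT 𝒜.Plus := ⟨fun _ _ _ => rfl⟩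
instance instTowerMinus : IsScalarTower K 𝒜.AlgT 𝒜.Minus := ⟨fun _ _ _ => rfl⟩

/-- the distance of the even projector from the `K`-combinations of algebraic operators: the least
rank of `π_+ - u` -/
noncomputable def dist : ℕ :=
  sInf {r : ℕ | ∃ u ∈ 𝒜.Alg, finrank K (LinearMap.range (1 - u.1)) +
    finrank K (LinearMap.range u.2) = r}

/-- the conjecture: a nonzero multiple of the even projector comes from `K_0(𝒜ᵒᵖ ⊗ 𝒜)` -/
def CPlus : Prop := ∃ (z : 𝒜.Corr) (m : ℕ), m ≠ 0 ∧ 𝒜.actPlus z = (m : End K 𝒜.Plus) ∧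
  𝒜.actMinus z = 0

/-- `Q / P` is the zeta function `exp (∑ χ(z^n) t^n / n)` of `z`, in lowest terms -/
def IsZeta (z : 𝒜.Corr) (Q P : ℚ[X]) : Prop :=
  IsCoprime Q P ∧ Q.coeff 0 = 1 ∧ P.coeff 0 = 1 ∧
    ((derivative Q * P - Q * derivative P : ℚ[X]) : PowerSeries ℚ) =
      ((Q * P : ℚ[X]) : PowerSeries ℚ) * PowerSeries.mk (fun n => (𝒜.lefschetz (z ^ (n + 1)) : ℚ))

/-- the semisimplifications of the even and of the odd part are `C ⊕ X` and `C ⊕ Y`, where there are no
nonzero homomorphisms from `X` to `Y`, and `C` has dimension `d` -/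
def CommonPart (d : ℕ) : Prop := ∃ C X Y : SMod K 𝒜.AlgT,
  Split K 𝒜.AlgT 𝒜.Plus 𝒜.Minus C.Car X.Car Y.Car ∧ finrank K C.Car = d

/-- the family `z` spans the `K`-space of the combinations of algebraic operators -/
def Spans {m : ℕ} (z : Fin m → 𝒜.Corr) : Prop :=
  Submodule.span K (Set.range fun i => 𝒜.act (z i)) = Submodule.span K (Set.range 𝒜.act)

/-- the zeta function of `z`, in lowest terms, has numerator and denominator of the degrees
`dim V_- - d` and `dim V_+ - d` -/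
def Extremal (z : 𝒜.Corr) : Prop := ∀ Q P : ℚ[X], 𝒜.IsZeta z Q P →
  P.natDegree + 𝒜.dist = finrank K 𝒜.Plus ∧ Q.natDegree + 𝒜.dist = finrank K 𝒜.Minus

variable [CharZero K]

theorem exists_isZeta (z : 𝒜.Corr) : ∃ Q P : ℚ[X], 𝒜.IsZeta z Q P :=
  exists_reduced (𝒜.actPlus z) (𝒜.actMinus z) (fun n => 𝒜.lefschetz (z ^ (n + 1)))
    (fun n => by rw [← map_pow, ← map_pow, 𝒜.trace_formula])

/-- comparison with the characteristic polynomials -/
theorem cross {z : 𝒜.Corr} {Q P : ℚ[X]} (h : 𝒜.IsZeta z Q P) :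
    Q.map (algebraMap ℚ K) * (𝒜.actPlus z).charpoly.reverse =
      P.map (algebraMap ℚ K) * (𝒜.actMinus z).charpoly.reverse := by
  obtain ⟨-, hQ0, hP0, hd⟩ := h
  set U : PowerSeries K := PowerSeries.mk (fun n => ((𝒜.lefschetz (z ^ (n + 1)) : ℤ) : K)) with hU
  have h4 : PowerSeries.map (algebraMap ℚ K)
      (PowerSeries.mk (fun n => ((𝒜.lefschetz (z ^ (n + 1)) : ℤ) : ℚ))) = U := by
    ext n
    rw [PowerSeries.coeff_map, PowerSeries.coeff_mk, hU, PowerSeries.coeff_mk, eq_ratCast,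
      Rat.cast_intCast]
  have h1 := congrArg (PowerSeries.map (algebraMap ℚ K)) hd
  rw [map_mul, h4, ← Polynomial.polynomial_map_coe, ← Polynomial.polynomial_map_coe,
    Polynomial.map_sub, Polynomial.map_mul, Polynomial.map_mul, Polynomial.map_mul,
    ← Polynomial.derivative_map, ← Polynomial.derivative_map] at h1
  set q := Q.map (algebraMap ℚ K) with hq
  set p := P.map (algebraMap ℚ K) with hp
  rw [Polynomial.coe_sub, Polynomial.coe_mul (derivative q), Polynomial.coe_mul q (derivative p),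
    Polynomial.coe_mul q p, ← PowerSeries.derivative_coe, ← PowerSeries.derivative_coe] at h1
  set R := (𝒜.actPlus z).charpoly.reverse with hR
  set S := (𝒜.actMinus z).charpoly.reverse with hS
  have hUf : psum (𝒜.actPlus z) - psum (𝒜.actMinus z) = U := by
    ext n
    rw [map_sub, psum, psum, PowerSeries.coeff_mk, PowerSeries.coeff_mk, hU, PowerSeries.coeff_mk,
      ← map_pow, ← map_pow, 𝒜.trace_formula]
  have h2 : PowerSeries.derivative K (S : PowerSeries K) * (R : PowerSeries K) -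
      (S : PowerSeries K) * PowerSeries.derivative K (R : PowerSeries K) =
        (S : PowerSeries K) * (R : PowerSeries K) * U := by
    rw [hR, hS, deriv_rev, deriv_rev, ← hUf]
    ring
  have h3 := quot_unique h1 h2 (by rw [Polynomial.constantCoeff_coe, hq, coeff_map, hQ0, map_one])
    (by rw [Polynomial.constantCoeff_coe, hp, coeff_map, hP0, map_one])
    (by rw [Polynomial.constantCoeff_coe, hS, rev_zero])
    (by rw [Polynomial.constantCoeff_coe, hR, rev_zero])
  rw [← Polynomial.coe_inj, Polynomial.coe_mul, Polynomial.coe_mul]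
  exact h3

section split

variable {C X Y : Type}
    [AddCommGroup C] [Module K C] [Module 𝒜.AlgT C] [IsScalarTower K 𝒜.AlgT C] [FiniteDimensional K C]
    [AddCommGroup X] [Module K X] [Module 𝒜.AlgT X] [IsScalarTower K 𝒜.AlgT X] [FiniteDimensional K X]
    [AddCommGroup Y] [Module K Y] [Module 𝒜.AlgT Y] [IsScalarTower K 𝒜.AlgT Y] [FiniteDimensional K Y]

/-- the element of the algebra given by a bimodule class -/
def elt (z : 𝒜.Corr) : 𝒜.AlgT := ⟨𝒜.act z, Algebra.subset_adjoin ⟨z, rfl⟩⟩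

omit [CharZero K] in
theorem lsmul_plus (z : 𝒜.Corr) : Algebra.lsmul K K 𝒜.Plus (𝒜.elt z) = 𝒜.actPlus z := rfl

omit [CharZero K] in
theorem lsmul_minus (z : 𝒜.Corr) : Algebra.lsmul K K 𝒜.Minus (𝒜.elt z) = 𝒜.actMinus z := rfl

/-- the reduced equation -/
theorem cross' (s : Split K 𝒜.AlgT 𝒜.Plus 𝒜.Minus C X Y) {z : 𝒜.Corr} {Q P : ℚ[X]}
    (h : 𝒜.IsZeta z Q P) :
    Q.map (algebraMap ℚ K) * (Algebra.lsmul K K X (𝒜.elt z)).charpoly.reverse =
      P.map (algebraMap ℚ K) * (Algebra.lsmul K K Y (𝒜.elt z)).charpoly.reverse := by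
  have h1 := 𝒜.cross h
  rw [← lsmul_plus, ← lsmul_minus, charpoly_act s.trV s.dimV, charpoly_act s.trW s.dimW,
    reverse_mul_of_domain, reverse_mul_of_domain] at h1
  have h2 : (Algebra.lsmul K K C (𝒜.elt z)).charpoly.reverse ≠ 0 := by
    rw [Ne, reverse_eq_zero]
    exact (LinearMap.charpoly_monic _).ne_zero
  apply mul_left_cancel₀ h2
  linear_combination h1

theorem degree_bound (s : Split K 𝒜.AlgT 𝒜.Plus 𝒜.Minus C X Y) {z : 𝒜.Corr} {Q P : ℚ[X]}
    (h : 𝒜.IsZeta z Q P) :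
    P.natDegree + finrank K C ≤ finrank K 𝒜.Plus ∧ Q.natDegree + finrank K C ≤ finrank K 𝒜.Minus := by
  have h1 := 𝒜.cross' s h
  have hcop : IsCoprime (Q.map (algebraMap ℚ K)) (P.map (algebraMap ℚ K)) :=
    (isCoprime_map _).2 h.1
  have h2 : P.map (algebraMap ℚ K) ∣ (Algebra.lsmul K K X (𝒜.elt z)).charpoly.reverse :=
    hcop.symm.dvd_of_dvd_mul_left ⟨_, h1⟩
  have h3 : Q.map (algebraMap ℚ K) ∣ (Algebra.lsmul K K Y (𝒜.elt z)).charpoly.reverse :=
    hcop.dvd_of_dvd_mul_left ⟨_, h1.symm⟩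
  have hne : ∀ {U : Type} [AddCommGroup U] [Module K U] [FiniteDimensional K U] (f : End K U),
      f.charpoly.reverse ≠ 0 := by
    intro U _ _ _ f
    rw [Ne, reverse_eq_zero]
    exact f.charpoly_monic.ne_zero
  have h4 := natDegree_le_of_dvd h2 (hne _)
  have h5 := natDegree_le_of_dvd h3 (hne _)
  have h6 := (Algebra.lsmul K K X (𝒜.elt z)).charpoly.reverse_natDegree_le
  have h7 := (Algebra.lsmul K K Y (𝒜.elt z)).charpoly.reverse_natDegree_le
  rw [natDegree_map] at h4 h5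
  rw [LinearMap.charpoly_natDegree] at h6 h7
  have h8 := s.dimV
  have h9 := s.dimW
  omega

theorem degree_eq (s : Split K 𝒜.AlgT 𝒜.Plus 𝒜.Minus C X Y) {z : 𝒜.Corr} {Q P : ℚ[X]}
    (h : 𝒜.IsZeta z Q P) (h₁ : (𝒜.actPlus z).charpoly.coeff 0 ≠ 0)
    (h₂ : (𝒜.actMinus z).charpoly.coeff 0 ≠ 0)
    (h₃ : IsCoprime (Algebra.lsmul K K X (𝒜.elt z)).charpoly
      (Algebra.lsmul K K Y (𝒜.elt z)).charpoly) :
    P.natDegree + finrank K C = finrank K 𝒜.Plus ∧ Q.natDegree + finrank K C = finrank K 𝒜.Minus := by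
  have h1 := 𝒜.cross' s h
  have hb := 𝒜.degree_bound s h
  have hcop := Pool.Agent.Y121.CF.isCoprime_reverse (LinearMap.charpoly_monic _) h₃
  have h2 : (Algebra.lsmul K K X (𝒜.elt z)).charpoly.reverse ∣ P.map (algebraMap ℚ K) := by
    refine hcop.dvd_of_dvd_mul_right (y := P.map (algebraMap ℚ K)) ⟨Q.map (algebraMap ℚ K), ?_⟩
    rw [← h1, mul_comm]
  have h3 : (Algebra.lsmul K K Y (𝒜.elt z)).charpoly.reverse ∣ Q.map (algebraMap ℚ K) := by
    refine hcop.symm.dvd_of_dvd_mul_right (y := Q.map (algebraMap ℚ K)) ⟨P.map (algebraMap ℚ K), ?_⟩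
    rw [h1, mul_comm]
  have hne : ∀ {p : ℚ[X]}, p.coeff 0 = 1 → p.map (algebraMap ℚ K) ≠ 0 := by
    intro p hp h0
    have h5 : (p.map (algebraMap ℚ K)).coeff 0 = 1 := by rw [coeff_map, hp, map_one]
    rw [h0, coeff_zero] at h5
    exact zero_ne_one h5
  have h4 := natDegree_le_of_dvd h2 (hne h.2.2.1)
  have h5 := natDegree_le_of_dvd h3 (hne h.2.1)
  rw [natDegree_map] at h4 h5
  have hrev : ∀ {U : Type} [AddCommGroup U] [Module K U] [FiniteDimensional K U] (f : End K U),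
      f.charpoly.coeff 0 ≠ 0 → f.charpoly.reverse.natDegree = finrank K U := by
    intro U _ _ _ f hf
    rw [reverse_natDegree, natTrailingDegree_eq_zero.2 (Or.inr hf), LinearMap.charpoly_natDegree,
      Nat.sub_zero]
  rw [← lsmul_plus, charpoly_act s.trV s.dimV, mul_coeff_zero] at h₁
  rw [← lsmul_minus, charpoly_act s.trW s.dimW, mul_coeff_zero] at h₂
  rw [hrev _ (right_ne_zero_of_mul h₁)] at h4
  rw [hrev _ (right_ne_zero_of_mul h₂)] at h5
  have h8 := s.dimV
  have h9 := s.dimW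
  omega

end split

omit [CharZero K] in
/-- a finite family which spans -/
theorem exists_family : ∃ (m : ℕ) (z : Fin m → 𝒜.Corr),
    Submodule.span K (Set.range fun i => 𝒜.act (z i)) = Submodule.span K (Set.range 𝒜.act) := by
  obtain ⟨t, ht, hspan⟩ := (Submodule.fg_span_iff_fg_span_finset_subset (R := K) (Set.range 𝒜.act)).1
    (IsNoetherian.noetherian _)
  have h1 : ∀ i : Fin t.card, ∃ z, 𝒜.act z = (t.equivFin.symm i : End K 𝒜.Plus × End K 𝒜.Minus) :=
    fun i => ht (t.equivFin.symm i).2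
  choose z hz using h1
  refine ⟨t.card, z, ?_⟩
  rw [hspan]
  congr 1
  ext x
  constructor
  · rintro ⟨i, rfl⟩
    show 𝒜.act (z i) ∈ (t : Set _)
    rw [hz]
    exact (t.equivFin.symm i).2
  · intro hx
    refine ⟨t.equivFin ⟨x, hx⟩, ?_⟩
    show 𝒜.act (z _) = x
    rw [hz, Equiv.symm_apply_apply]

theorem generic_zeta {C X Y : Type}
    [AddCommGroup C] [Module K C] [Module 𝒜.AlgT C] [IsScalarTower K 𝒜.AlgT C] [FiniteDimensional K C]
    [AddCommGroup X] [Module K X] [Module 𝒜.AlgT X] [IsScalarTower K 𝒜.AlgT X] [FiniteDimensional K X]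
    [AddCommGroup Y] [Module K Y] [Module 𝒜.AlgT Y] [IsScalarTower K 𝒜.AlgT Y] [FiniteDimensional K Y]
    [IsSemisimpleModule 𝒜.AlgT X] [IsSemisimpleModule 𝒜.AlgT Y]
    (s : Split K 𝒜.AlgT 𝒜.Plus 𝒜.Minus C X Y) {m : ℕ} (z : Fin m → 𝒜.Corr)
    (hz : Submodule.span K (Set.range fun i => 𝒜.act (z i)) = Submodule.span K (Set.range 𝒜.act)) :
    ∃ F : MvPolynomial (Fin m) K, F ≠ 0 ∧ ∀ n : Fin m → ℤ,
      MvPolynomial.eval (fun i => (n i : K)) F ≠ 0 →
      (𝒜.actPlus (∑ i, n i • z i)).charpoly.coeff 0 ≠ 0 ∧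
      (𝒜.actMinus (∑ i, n i • z i)).charpoly.coeff 0 ≠ 0 ∧
      IsCoprime (Algebra.lsmul K K X (𝒜.elt (∑ i, n i • z i))).charpoly
        (Algebra.lsmul K K Y (𝒜.elt (∑ i, n i • z i))).charpoly := by
  have hz' : Submodule.span K (Set.range fun i => 𝒜.elt (z i)) = ⊤ := by
    rw [eq_top_iff]
    rintro ⟨u, hu⟩ -
    have h1 := hu
    rw [mem_alg, ← hz] at h1
    have h2 : Submodule.span K (Set.range fun i => 𝒜.act (z i)) =
        (Submodule.span K (Set.range fun i => 𝒜.elt (z i))).map 𝒜.incl.toLinearMap := by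
      rw [Submodule.map_span, ← Set.range_comp]
      rfl
    rw [h2] at h1
    obtain ⟨v, hv, hvu⟩ := h1
    have h3 : v = ⟨u, hu⟩ := Subtype.ext hvu
    rw [← h3]
    exact hv
  obtain ⟨F, hF, hF'⟩ := generic s (fun i => 𝒜.elt (z i)) hz'
  refine ⟨F, hF, fun n hn => ?_⟩
  have h1 := hF' _ hn
  have h2 : ∑ i, (n i : K) • 𝒜.elt (z i) = 𝒜.elt (∑ i, n i • z i) := by
    apply 𝒜.incl_injective
    rw [map_sum]
    have h3 : ∀ i, 𝒜.incl ((n i : K) • 𝒜.elt (z i)) = (n i : K) • 𝒜.act (z i) := fun i => rfl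
    rw [Finset.sum_congr rfl fun i _ => h3 i]
    show ∑ i, (n i : K) • 𝒜.act (z i) = 𝒜.act (∑ i, n i • z i)
    refine Prod.ext ?_ ?_
    · rw [Prod.fst_sum]
      show ∑ i, (n i : K) • 𝒜.actPlus (z i) = 𝒜.actPlus (∑ i, n i • z i)
      rw [map_sum]
      refine Finset.sum_congr rfl fun i _ => ?_
      rw [map_zsmul, Int.cast_smul_eq_zsmul]
    · rw [Prod.snd_sum]
      show ∑ i, (n i : K) • 𝒜.actMinus (z i) = 𝒜.actMinus (∑ i, n i • z i)
      rw [map_sum]
      refine Finset.sum_congr rfl fun i _ => ?_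
      rw [map_zsmul, Int.cast_smul_eq_zsmul]
  rw [h2] at h1
  exact h1

/-- the distance is the dimension of the common part -/
theorem dist_eq {C X Y : Type}
    [AddCommGroup C] [Module K C] [Module 𝒜.AlgT C] [IsScalarTower K 𝒜.AlgT C] [FiniteDimensional K C]
    [AddCommGroup X] [Module K X] [Module 𝒜.AlgT X] [IsScalarTower K 𝒜.AlgT X] [FiniteDimensional K X]
    [AddCommGroup Y] [Module K Y] [Module 𝒜.AlgT Y] [IsScalarTower K 𝒜.AlgT Y] [FiniteDimensional K Y]
    [IsSemisimpleModule 𝒜.AlgT X] [IsSemisimpleModule 𝒜.AlgT Y]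
    (s : Split K 𝒜.AlgT 𝒜.Plus 𝒜.Minus C X Y) : 𝒜.dist = finrank K C := by
  have h1 := isLeast_one s
  have h2 : {r : ℕ | ∃ a : 𝒜.AlgT, finrank K (LinearMap.range (1 - Algebra.lsmul K K 𝒜.Plus a)) +
      finrank K (LinearMap.range (Algebra.lsmul K K 𝒜.Minus a)) = r} =
      {r : ℕ | ∃ u ∈ 𝒜.Alg, finrank K (LinearMap.range (1 - u.1)) +
        finrank K (LinearMap.range u.2) = r} := by
    ext r
    constructor
    · rintro ⟨a, ha⟩
      exact ⟨a.1, a.2, ha⟩
    · rintro ⟨u, hu, ha⟩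
      exact ⟨⟨u, hu⟩, ha⟩
  rw [h2] at h1
  exact h1.csInf_eq

/-- the conjecture holds if there is a separating class -/
theorem cplus_of_coprime {z : 𝒜.Corr}
    (h : IsCoprime (𝒜.actPlus z).charpoly (𝒜.actMinus z).charpoly) : 𝒜.CPlus := by
  obtain ⟨a, N, hN, h1, h2⟩ := Pool.Agent.Y121.CF.proj_of_sep 𝒜.actPlus 𝒜.actMinus
    (fun x => ⟨𝒜.lefschetz x, by rw [𝒜.trace_formula, Rat.cast_intCast]⟩) z h
  exact ⟨a, N, hN, h1, h2⟩

theorem cplus_iff : 𝒜.CPlus ↔ 𝒜.dist = 0 := by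
  obtain ⟨C, X, Y, _, _, _, _, _, _, _, _, _, _, _, _, _, _, _, _, _, _, s⟩ :=
    exists_split (k := K) (A := 𝒜.AlgT) 𝒜.Plus 𝒜.Minus
  rw [𝒜.dist_eq s]
  constructor
  · rintro ⟨z, m, hm, h1, h2⟩
    have hm' : (m : K) ≠ 0 := Nat.cast_ne_zero.2 hm
    have h3 := (isLeast_one s).2 ⟨(m : K)⁻¹ • 𝒜.elt z, rfl⟩
    rw [map_smul, map_smul, lsmul_plus, lsmul_minus, h1, h2, smul_zero] at h3
    have h4 : (m : K)⁻¹ • (m : End K 𝒜.Plus) = 1 := by
      have h5 : (m : End K 𝒜.Plus) = (m : K) • (1 : End K 𝒜.Plus) := by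
        rw [Nat.cast_smul_eq_nsmul, nsmul_eq_mul, mul_one]
      rw [h5, smul_smul, inv_mul_cancel₀ hm', one_smul]
    rw [h4, sub_self, LinearMap.range_zero, LinearMap.range_zero, finrank_bot, finrank_bot] at h3
    omega
  · intro h0
    obtain ⟨m, z, hz⟩ := 𝒜.exists_family
    obtain ⟨F, hF, hF'⟩ := 𝒜.generic_zeta s z hz
    obtain ⟨n, hn⟩ := Pool.Agent.Y121.CF.exists_int_point F hF
    obtain ⟨-, -, h1⟩ := hF' n hn
    apply 𝒜.cplus_of_coprime (z := ∑ i, n i • z i)
    rw [← lsmul_plus, ← lsmul_minus, charpoly_act s.trV s.dimV, charpoly_act s.trW s.dimW]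
    have h2 : (Algebra.lsmul K K C (𝒜.elt (∑ i, n i • z i))).charpoly = 1 := by
      refine (Polynomial.Monic.natDegree_eq_zero (LinearMap.charpoly_monic _)).1 ?_
      rw [LinearMap.charpoly_natDegree, h0]
    rw [h2, one_mul, one_mul]
    exact h1

end NCData

end Pool.Agent.H938.CC
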