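import Pool.Agent.H938.CC.Syl
import Pool.Graph.R_pool_sql_team_seeded_3dad9d7b.NH52.MB.Ss
import Pool.Graph.R_pool_sql_team_seeded_3dad9d7b.NH52.MB.Bnl
import Pool.Graph.R_seed8.TH658.Eq.Newt

set_option autoImplicit false

open Module Polynomial Pool.Agent.NH52.MB

namespace Pool.Agent.H938.CC

variable {k A : Type} [Field k] [Ring A] [Algebra k A]

section sep

variable {M N : Type} [AddCommGroup M] [Module k M] [Module A M] [IsScalarTower k A M]
  [AddCommGroup N] [Module k N] [Module A N] [IsScalarTower k A N]
  [FiniteDimensional k M] [FiniteDimensional k N] [IsSemisimpleModule A M]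
  [IsSemisimpleModule A N]

variable (k) in
include k in
/-- disjoint semisimple modules are separated by an element of the algebra -/
theorem separate (hcon : ∀ f : M →ₗ[A] N, f = 0) :
    ∃ a : A, (∀ x : M, a • x = x) ∧ ∀ y : N, a • y = 0 := by
  classical
  have hcon' : ∀ g : N →ₗ[A] M, g = 0 := fun g => Bnl.hom_symm hcon g
  have hf : ∀ (f : Module.End A (M × N)) (x : M) (y : N), (f (x, y)).1 = (f (x, 0)).1 ∧
      (f (x, 0)).2 = 0 := by
    intro f x y
    constructor
    · have h1 : f (x, y) = f (x, 0) + f (0, y) := by
        rw [← map_add]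
        simp
      have h2 := LinearMap.congr_fun (hcon' ((LinearMap.fst A M N).comp (f.comp
        (LinearMap.inr A M N)))) y
      have h3 : (f (0, y)).1 = 0 := h2
      rw [h1, Prod.fst_add, h3, add_zero]
    · exact LinearMap.congr_fun (hcon ((LinearMap.snd A M N).comp (f.comp
        (LinearMap.inl A M N)))) x
  let e : Module.End (Module.End A (M × N)) (M × N) :=
    { toFun := fun p => (p.1, 0)
      map_add' := fun p q => by simp
      map_smul' := fun f p => by
        obtain ⟨x, y⟩ := p
        show ((f (x, y)).1, (0 : N)) = f (x, 0)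
        rw [(hf f x y).1]
        exact Prod.ext rfl (hf f x y).2.symm }
  have hss : IsSemisimpleModule A (M × N) := ss_prod A M N
  let b := Module.finBasis k (M × N)
  obtain ⟨a, ha⟩ := jacobson_density (R := A) e (Finset.univ.image b)
  have ha' : ∀ p : M × N, a • p = (p.1, 0) := by
    intro p
    have h1 : Algebra.lsmul k k (M × N) a = (LinearMap.inl k M N).comp (LinearMap.fst k M N) := by
      refine b.ext fun i => ?_
      have h2 := ha (b i) (Finset.mem_image_of_mem _ (Finset.mem_univ _))
      exact h2.symm
    exact LinearMap.congr_fun h1 p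
  exact ⟨a, fun x => congrArg Prod.fst (ha' (x, 0)), fun y => congrArg Prod.snd (ha' (0, y))⟩

end sep

/-- the common part of two semisimple modules -/
theorem common_part : ∀ (d : ℕ) (M N : Type) [AddCommGroup M] [Module k M]
    [Module A M] [IsScalarTower k A M] [AddCommGroup N] [Module k N] [Module A N]
    [IsScalarTower k A N] [FiniteDimensional k M] [FiniteDimensional k N] [IsSemisimpleModule A M]
    [IsSemisimpleModule A N], finrank k M = d →
    ∃ (C X Y : Type) (_ : AddCommGroup C) (_ : Module k C) (_ : Module A C) (_ : IsScalarTower k A C)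
      (_ : FiniteDimensional k C) (_ : IsSemisimpleModule A C)
      (_ : AddCommGroup X) (_ : Module k X) (_ : Module A X) (_ : IsScalarTower k A X)
      (_ : FiniteDimensional k X) (_ : IsSemisimpleModule A X)
      (_ : AddCommGroup Y) (_ : Module k Y) (_ : Module A Y) (_ : IsScalarTower k A Y)
      (_ : FiniteDimensional k Y) (_ : IsSemisimpleModule A Y),
      (∀ a : A, tr k M a = tr k C a + tr k X a) ∧ (∀ a : A, tr k N a = tr k C a + tr k Y a) ∧
      finrank k M = finrank k C + finrank k X ∧ finrank k N = finrank k C + finrank k Y ∧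
      ∀ f : X →ₗ[A] Y, f = 0 := by
  intro d
  induction d using Nat.strong_induction_on with
  | _ d ih =>
    intro M N _ _ _ _ _ _ _ _ _ _ _ _ hd
    by_cases hall : ∀ f : M →ₗ[A] N, f = 0
    · have hss : IsSemisimpleModule A PUnit.{1} :=
        (isSemisimpleModule_iff A PUnit.{1}).mpr Subsingleton.instComplementedLattice
      refine ⟨PUnit.{1}, M, N, inferInstance, inferInstance, inferInstance, ⟨fun _ _ _ => rfl⟩,
        inferInstance, hss, inferInstance, inferInstance, inferInstance, inferInstance,
        inferInstance, inferInstance, inferInstance, inferInstance, inferInstance, inferInstance,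
        inferInstance, inferInstance, ?_, ?_, ?_, ?_, hall⟩
      · intro a
        have : tr k PUnit.{1} a = 0 := by
          unfold tr
          rw [Subsingleton.elim (Algebra.lsmul k k PUnit.{1} a) 0, map_zero]
        rw [this, zero_add]
      · intro a
        have : tr k PUnit.{1} a = 0 := by
          unfold tr
          rw [Subsingleton.elim (Algebra.lsmul k k PUnit.{1} a) 0, map_zero]
        rw [this, zero_add]
      · have h0 : finrank k PUnit.{1} = 0 := Module.finrank_zero_of_subsingleton
        rw [h0, zero_add]
      · have h0 : finrank k PUnit.{1} = 0 := Module.finrank_zero_of_subsingleton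
        rw [h0, zero_add]
    · push Not at hall
      obtain ⟨f, hf⟩ := hall
      obtain ⟨K', hK'⟩ := exists_isCompl (LinearMap.ker f)
      obtain ⟨C', hC'⟩ := exists_isCompl (LinearMap.range f)
      have hfd : ∀ K : Submodule A M, FiniteDimensional k K := fun K =>
        FiniteDimensional.of_injective (K.subtype.restrictScalars k) K.subtype_injective
      have hfd' : ∀ K : Submodule A N, FiniteDimensional k K := fun K =>
        FiniteDimensional.of_injective (K.subtype.restrictScalars k) K.subtype_injective
      have := hfd (LinearMap.ker f)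
      have := hfd K'
      have := hfd' (LinearMap.range f)
      have := hfd' C'
      have e₁ : K' ≃ₗ[A] LinearMap.range f :=
        (Submodule.quotientEquivOfIsCompl _ _ hK').symm.trans f.quotKerEquivRange
      have e₂ := Submodule.prodEquivOfIsCompl _ _ hK'
      have e₃ := Submodule.prodEquivOfIsCompl _ _ hC'
      have h2 : finrank k (LinearMap.ker f) < d := by
        rw [← hd]
        have h3 : (LinearMap.ker f).restrictScalars k ≠ ⊤ := by
          intro h4
          apply hf
          ext x
          have h5 : x ∈ (LinearMap.ker f).restrictScalars k := by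
            rw [h4]
            exact Submodule.mem_top
          exact h5
        exact Submodule.finrank_lt h3
      obtain ⟨C, X, Y, _, _, _, _, _, _, _, _, _, _, _, _, _, _, _, _, _, _, hM, hN, hMd, hNd,
        hXY⟩ := ih _ h2 (LinearMap.ker f) C' rfl
      have hss : IsSemisimpleModule A (K' × C) := ss_prod A K' C
      have d2 := (e₂.restrictScalars k).finrank_eq
      have d3 := (e₃.restrictScalars k).finrank_eq
      have d4 := (e₁.restrictScalars k).finrank_eq
      rw [Module.finrank_prod] at d2 d3
      refine ⟨K' × C, X, Y, inferInstance, inferInstance, inferInstance, inferInstance,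
        inferInstance, hss, inferInstance, inferInstance, inferInstance, inferInstance,
        inferInstance, inferInstance, inferInstance, inferInstance, inferInstance, inferInstance,
        inferInstance, inferInstance, ?_, ?_, ?_, ?_, hXY⟩
      · intro a
        have t2 := Bnl.tr_congr (k := k) e₂ a
        rw [Bnl.tr_prod] at t2
        rw [← t2, Bnl.tr_prod, hM]
        ring
      · intro a
        have t3 := Bnl.tr_congr (k := k) e₃ a
        have t4 := Bnl.tr_congr (k := k) e₁ a
        rw [Bnl.tr_prod] at t3
        rw [← t3, Bnl.tr_prod, hN, t4]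
        ring
      · rw [Module.finrank_prod]
        omega
      · rw [Module.finrank_prod]
        omega

/-- a polynomial which gives idempotents -/
theorem exists_idem_poly {h : k[X]} (hh : h ≠ 0) :
    ∃ p : k[X], p.eval 1 = 1 ∧ p.eval 0 = 0 ∧ h ∣ p * (1 - p) := by
  obtain ⟨h', hh', hnd⟩ := Polynomial.exists_eq_pow_rootMultiplicity_mul_and_not_dvd h hh 1
  set m := h.rootMultiplicity 1
  have h1 : IsCoprime ((X - C 1 : k[X]) ^ (m + 1)) (X * h') := by
    apply IsCoprime.pow_left
    refine IsCoprime.mul_right ?_ ?_
    · have h2 : IsCoprime (X - C (1 : k)) (X - C (0 : k)) :=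
        isCoprime_X_sub_C_of_isUnit_sub (by rw [sub_zero]; exact isUnit_one)
      rwa [C_0, sub_zero] at h2
    · exact (irreducible_X_sub_C (1 : k)).coprime_iff_not_dvd.2 hnd
  obtain ⟨u, v, huv⟩ := h1
  refine ⟨v * (X * h'), ?_, ?_, ?_⟩
  · have h2 := congrArg (eval (1 : k)) huv
    rw [eval_add, eval_mul, eval_pow, eval_sub, eval_X, eval_C, sub_self, eval_one, pow_succ,
      mul_zero, mul_zero, zero_add] at h2
    exact h2
  · rw [eval_mul, eval_mul, eval_X, zero_mul, mul_zero]
  · have h2 : 1 - v * (X * h') = u * (X - C 1) ^ (m + 1) := by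
      rw [← huv]
      ring
    rw [h2]
    conv_lhs => rw [hh']
    refine ⟨v * X * (u * (X - C 1)), ?_⟩
    ring

/-- a common divisor of the characteristic polynomials has at most the degree of the error -/
theorem degree_le_rank {V W : Type} [AddCommGroup V] [Module k V] [FiniteDimensional k V]
    [AddCommGroup W] [Module k W] [FiniteDimensional k W] (f : End k V) (g : End k W) {H : k[X]}
    (h1 : H ∣ f.charpoly) (h2 : H ∣ g.charpoly) :
    H.natDegree ≤ finrank k (LinearMap.range (1 - f)) + finrank k (LinearMap.range g) := by
  obtain ⟨P, hP, -⟩ := Polynomial.exists_eq_pow_rootMultiplicity_mul_and_not_dvd f.charpoly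
    f.charpoly_monic.ne_zero 1
  obtain ⟨Q, hQ, -⟩ := Polynomial.exists_eq_pow_rootMultiplicity_mul_and_not_dvd g.charpoly
    g.charpoly_monic.ne_zero 0
  set m := f.charpoly.rootMultiplicity 1 with hm
  set n := g.charpoly.rootMultiplicity 0 with hn
  have hcop : IsCoprime ((X - C 1 : k[X]) ^ m) ((X - C 0 : k[X]) ^ n) := by
    apply IsCoprime.pow
    exact isCoprime_X_sub_C_of_isUnit_sub (by rw [sub_zero]; exact isUnit_one)
  obtain ⟨u, v, huv⟩ := hcop
  have hP0 : P ≠ 0 := by
    rintro rfl
    rw [mul_zero] at hP
    exact f.charpoly_monic.ne_zero hP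
  have hQ0 : Q ≠ 0 := by
    rintro rfl
    rw [mul_zero] at hQ
    exact g.charpoly_monic.ne_zero hQ
  have h3 : H ∣ P * Q := by
    have h4 : P * Q = u * Q * f.charpoly + v * P * g.charpoly := by
      rw [hP, hQ]
      have : P * Q = (u * (X - C 1) ^ m + v * (X - C 0) ^ n) * (P * Q) := by
        rw [huv, one_mul]
      rw [this]
      ring
    rw [h4]
    exact dvd_add (Dvd.dvd.mul_left h1 _) (Dvd.dvd.mul_left h2 _)
  have h5 := natDegree_le_of_dvd h3 (mul_ne_zero hP0 hQ0)
  rw [natDegree_mul hP0 hQ0] at h5
  have hX : ∀ (c : k) (j : ℕ), ((X - C c : k[X]) ^ j).natDegree = j := by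
    intro c j
    rw [natDegree_pow, natDegree_X_sub_C, mul_one]
  have h6 : P.natDegree + m = finrank k V := by
    have := f.charpoly_natDegree
    rw [hP, natDegree_mul (pow_ne_zero _ (X_sub_C_ne_zero _)) hP0, hX] at this
    omega
  have h7 : Q.natDegree + n = finrank k W := by
    have := g.charpoly_natDegree
    rw [hQ, natDegree_mul (pow_ne_zero _ (X_sub_C_ne_zero _)) hQ0, hX] at this
    omega
  have h8 : finrank k (LinearMap.ker (f - 1)) ≤ m := by
    have := LinearMap.finrank_eigenspace_le f 1
    rwa [Module.End.eigenspace_def, one_smul] at this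
  have h9 : finrank k (LinearMap.ker g) ≤ n := by
    have := LinearMap.finrank_eigenspace_le g 0
    rwa [Module.End.eigenspace_def, zero_smul, sub_zero] at this
  have h10 := LinearMap.finrank_range_add_finrank_ker (f - 1)
  have h11 := LinearMap.finrank_range_add_finrank_ker g
  have h12 : LinearMap.range (f - 1) = LinearMap.range (1 - f) := by
    rw [← neg_sub, LinearMap.range_neg]
  rw [h12] at h10
  omega

/-- the action of matrices on `V^N` -/
noncomputable def actN (k : Type) [Field k] {A : Type} [Ring A] [Algebra k A] (V : Type) [AddCommGroup V]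
    [Module k V] [Module A V] [IsScalarTower k A V] {N : ℕ} (F : Matrix (Fin N) (Fin N) A) :
    End k (Fin N → V) :=
  LinearMap.pi fun i => ∑ j, (Algebra.lsmul k k V (F i j)).comp (LinearMap.proj j)

section act

variable {V : Type} [AddCommGroup V] [Module k V] [Module A V] [IsScalarTower k A V]

theorem actN_apply {N : ℕ} (F : Matrix (Fin N) (Fin N) A) (v : Fin N → V) (i : Fin N) :
    actN k V F v i = ∑ j, F i j • v j := by
  unfold actN
  rw [LinearMap.pi_apply, LinearMap.sum_apply]
  rfl

theorem actN_mul {N : ℕ} (F G : Matrix (Fin N) (Fin N) A) :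
    actN k V (F * G) = actN k V F * actN k V G := by
  apply LinearMap.ext
  intro v
  funext i
  rw [Module.End.mul_apply, actN_apply, actN_apply]
  have h1 : ∀ j, F i j • actN k V G v j = ∑ l, (F i j * G j l) • v l := by
    intro j
    rw [actN_apply, Finset.smul_sum]
    exact Finset.sum_congr rfl fun l _ => smul_smul _ _ _
  rw [Finset.sum_congr rfl fun j _ => h1 j, Finset.sum_comm]
  refine Finset.sum_congr rfl fun l _ => ?_
  rw [Matrix.mul_apply, Finset.sum_smul]

theorem actN_one {N : ℕ} : actN k V (1 : Matrix (Fin N) (Fin N) A) = 1 := by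
  apply LinearMap.ext
  intro v
  funext i
  rw [actN_apply, Finset.sum_eq_single i]
  · rw [Matrix.one_apply_eq, one_smul]
    rfl
  · intro j _ hj
    rw [Matrix.one_apply_ne (Ne.symm hj), zero_smul]
  · intro h
    exact absurd (Finset.mem_univ i) h

theorem actN_pow {N : ℕ} (F : Matrix (Fin N) (Fin N) A) (n : ℕ) :
    actN k V (F ^ n) = actN k V F ^ n := by
  induction n with
  | zero => rw [pow_zero, pow_zero, actN_one]
  | succ n ih => rw [pow_succ, pow_succ, actN_mul, ih]

theorem trace_actN [FiniteDimensional k V] {N : ℕ} (F : Matrix (Fin N) (Fin N) A) :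
    LinearMap.trace k (Fin N → V) (actN k V F) = ∑ i, tr k V (F i i) := by
  have h1 : actN k V F = ∑ i, ∑ j, (LinearMap.single k (fun _ : Fin N => V) i) ∘ₗ
      ((Algebra.lsmul k k V (F i j)) ∘ₗ (LinearMap.proj j)) := by
    apply LinearMap.ext
    intro v
    funext l
    rw [actN_apply]
    symm
    rw [LinearMap.sum_apply, Finset.sum_apply, Finset.sum_eq_single l]
    · rw [LinearMap.sum_apply, Finset.sum_apply]
      refine Finset.sum_congr rfl fun j _ => ?_
      rw [LinearMap.comp_apply, LinearMap.single_apply, Pi.single_eq_same]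
      rfl
    · intro i _ hi
      rw [LinearMap.sum_apply, Finset.sum_apply]
      refine Finset.sum_eq_zero fun j _ => ?_
      rw [LinearMap.comp_apply, LinearMap.single_apply, Pi.single_eq_of_ne (Ne.symm hi)]
    · intro h
      exact absurd (Finset.mem_univ l) h
  rw [h1, map_sum]
  refine Finset.sum_congr rfl fun i _ => ?_
  rw [map_sum, Finset.sum_eq_single i]
  · rw [LinearMap.trace_comp_comm', LinearMap.comp_assoc]
    have h2 : (LinearMap.proj i : (Fin N → V) →ₗ[k] V) ∘ₗ (LinearMap.single k (fun _ : Fin N => V) i) =
        LinearMap.id := by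
      apply LinearMap.ext
      intro v
      rw [LinearMap.comp_apply, LinearMap.single_apply, LinearMap.proj_apply, Pi.single_eq_same]
      rfl
    rw [h2, LinearMap.comp_id]
    rfl
  · intro j _ hj
    rw [LinearMap.trace_comp_comm', LinearMap.comp_assoc]
    have h2 : (LinearMap.proj j : (Fin N → V) →ₗ[k] V) ∘ₗ (LinearMap.single k (fun _ : Fin N => V) i) =
        0 := by
      apply LinearMap.ext
      intro v
      rw [LinearMap.comp_apply, LinearMap.single_apply, LinearMap.proj_apply, Pi.single_eq_of_ne hj]
      rfl
    rw [h2, LinearMap.comp_zero, map_zero]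
  · intro h
    exact absurd (Finset.mem_univ i) h

end act

/-- the characteristic polynomials on a module and on its semisimplification -/
theorem charpoly_actN [CharZero k] {V C X : Type} [AddCommGroup V] [Module k V] [Module A V]
    [IsScalarTower k A V] [FiniteDimensional k V] [AddCommGroup C] [Module k C] [Module A C]
    [IsScalarTower k A C] [FiniteDimensional k C] [AddCommGroup X] [Module k X] [Module A X]
    [IsScalarTower k A X] [FiniteDimensional k X]
    (htr : ∀ a : A, tr k V a = tr k C a + tr k X a)
    (hd : finrank k V = finrank k C + finrank k X) {N : ℕ} (F : Matrix (Fin N) (Fin N) A) :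
    (actN k V F).charpoly = (actN k C F).charpoly * (actN k X F).charpoly := by
  rw [← LinearMap.charpoly_prodMap]
  have h1 : finrank k (Fin N → V) = finrank k ((Fin N → C) × (Fin N → X)) := by
    rw [Module.finrank_prod, Module.finrank_pi_fintype, Module.finrank_pi_fintype,
      Module.finrank_pi_fintype, Finset.sum_const, Finset.sum_const, Finset.sum_const, hd]
    simp only [smul_eq_mul, mul_add]
  let b₁ := Module.finBasisOfFinrankEq k (Fin N → V) h1
  let b₂ := Module.finBasisOfFinrankEq k ((Fin N → C) × (Fin N → X)) rfl
  rw [← LinearMap.charpoly_toMatrix _ b₁, ← LinearMap.charpoly_toMatrix _ b₂]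
  refine Pool.Agent.TH658.Eq.charpoly_eq_of_traces _ _ fun n => ?_
  rw [LinearMap.toMatrix_pow, LinearMap.toMatrix_pow, ← LinearMap.trace_eq_matrix_trace,
    ← LinearMap.trace_eq_matrix_trace]
  have h2 : ((actN k C F).prodMap (actN k X F)) ^ n =
      ((actN k C F) ^ n).prodMap ((actN k X F) ^ n) := by
    induction n with
    | zero => rfl
    | succ n ih =>
      rw [pow_succ, ih, pow_succ, pow_succ]
      rfl
  rw [h2, LinearMap.trace_prodMap', ← actN_pow, ← actN_pow, ← actN_pow, trace_actN, trace_actN,
    trace_actN, ← Finset.sum_add_distrib]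
  exact Finset.sum_congr rfl fun i _ => htr _

theorem finrank_range_idem [CharZero k] {V : Type} [AddCommGroup V] [Module k V]
    [FiniteDimensional k V] {f : End k V} (hf : f * f = f) :
    (finrank k (LinearMap.range f) : k) = LinearMap.trace k V f := by
  have h1 : IsIdempotentElem f := hf
  rw [(LinearMap.IsIdempotentElem.isProj_range f h1).trace]

theorem finrank_range_one_sub {V : Type} [AddCommGroup V] [Module k V]
    [FiniteDimensional k V] {f : End k V} (hf : f * f = f) :
    finrank k (LinearMap.range (1 - f)) + finrank k (LinearMap.range f) = finrank k V := by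
  have h1 : LinearMap.range (1 - f) = LinearMap.ker f := by
    apply le_antisymm
    · rintro _ ⟨x, rfl⟩
      rw [LinearMap.mem_ker, LinearMap.sub_apply, map_sub, Module.End.one_apply,
        ← Module.End.mul_apply, hf, sub_self]
    · intro x hx
      refine ⟨x, ?_⟩
      rw [LinearMap.sub_apply, LinearMap.mem_ker.1 hx, sub_zero]
      rfl
  rw [h1, add_comm]
  exact LinearMap.finrank_range_add_finrank_ker f

end Pool.Agent.H938.CC
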