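import Mathlib

set_option autoImplicit false

open Module Polynomial

universe u v w

namespace Pool.Agent.H938.CC

section ring

variable {R : Type u} [CommRing R]

def idx (a b : ℕ) : Fin b ⊕ Fin a → ℕ := Sum.elim (fun i => (i : ℕ)) (fun j => b + (j : ℕ))

noncomputable def col (P Q : R[X]) (a b : ℕ) : Fin b ⊕ Fin a → R[X] :=
  Sum.elim (fun i => X ^ (i : ℕ) * P) (fun j => X ^ (j : ℕ) * Q)

noncomputable def syl (P Q : R[X]) (a b : ℕ) : Matrix (Fin b ⊕ Fin a) (Fin b ⊕ Fin a) R :=
  Matrix.of fun r c => (col P Q a b c).coeff (idx a b r)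

theorem syl_map {S : Type v} [CommRing S] (φ : R →+* S) (P Q : R[X]) (a b : ℕ) :
    (syl P Q a b).map φ = syl (P.map φ) (Q.map φ) a b := by
  ext r c
  rw [Matrix.map_apply, syl, syl, Matrix.of_apply, Matrix.of_apply, ← Polynomial.coeff_map]
  congr 1
  rcases c with c | c
  · simp [col]
  · simp [col]

noncomputable def up (a b : ℕ) (w : Fin b ⊕ Fin a → R) : R[X] := ∑ i : Fin b, C (w (Sum.inl i)) * X ^ (i : ℕ)
noncomputable def vp (a b : ℕ) (w : Fin b ⊕ Fin a → R) : R[X] := ∑ j : Fin a, C (w (Sum.inr j)) * X ^ (j : ℕ)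

theorem mulVec_syl (P Q : R[X]) (a b : ℕ) (w : Fin b ⊕ Fin a → R) (r : Fin b ⊕ Fin a) :
    (syl P Q a b).mulVec w r = (up a b w * P + vp a b w * Q).coeff (idx a b r) := by
  rw [Matrix.mulVec, dotProduct, Fintype.sum_sum_type, coeff_add, up, vp, Finset.sum_mul,
    Finset.sum_mul, finset_sum_coeff, finset_sum_coeff]
  congr 1
  · refine Finset.sum_congr rfl fun i _ => ?_
    rw [syl, Matrix.of_apply, mul_assoc, coeff_C_mul, mul_comm]
    rfl
  · refine Finset.sum_congr rfl fun i _ => ?_
    rw [syl, Matrix.of_apply, mul_assoc, coeff_C_mul, mul_comm]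
    rfl

theorem coeff_up (a b : ℕ) (w : Fin b ⊕ Fin a → R) (n : ℕ) :
    (up a b w).coeff n = if h : n < b then w (Sum.inl ⟨n, h⟩) else 0 := by
  rw [up, finset_sum_coeff]
  simp only [coeff_C_mul, coeff_X_pow]
  split_ifs with h
  · rw [Finset.sum_eq_single ⟨n, h⟩]
    · simp
    · intro i _ hi
      have : n ≠ i := fun h' => hi (Fin.ext h'.symm)
      simp [this]
    · simp
  · refine Finset.sum_eq_zero fun i _ => ?_
    have : n ≠ i := fun h' => h (h' ▸ i.2)
    simp [this]

theorem coeff_vp (a b : ℕ) (w : Fin b ⊕ Fin a → R) (n : ℕ) :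
    (vp a b w).coeff n = if h : n < a then w (Sum.inr ⟨n, h⟩) else 0 := by
  rw [vp, finset_sum_coeff]
  simp only [coeff_C_mul, coeff_X_pow]
  split_ifs with h
  · rw [Finset.sum_eq_single ⟨n, h⟩]
    · simp
    · intro i _ hi
      have : n ≠ i := fun h' => hi (Fin.ext h'.symm)
      simp [this]
    · simp
  · refine Finset.sum_eq_zero fun i _ => ?_
    have : n ≠ i := fun h' => h (h' ▸ i.2)
    simp [this]

theorem degree_up_lt (a b : ℕ) (w : Fin b ⊕ Fin a → R) : (up a b w).degree < b := by
  rw [Polynomial.degree_lt_iff_coeff_zero]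
  intro m hm
  rw [coeff_up, dif_neg (not_lt.2 hm)]

theorem degree_vp_lt (a b : ℕ) (w : Fin b ⊕ Fin a → R) : (vp a b w).degree < a := by
  rw [Polynomial.degree_lt_iff_coeff_zero]
  intro m hm
  rw [coeff_vp, dif_neg (not_lt.2 hm)]

theorem mem_ker_syl {P Q : R[X]} {a b : ℕ} (hP : P.natDegree ≤ a) (hQ : Q.natDegree ≤ b)
    (w : Fin b ⊕ Fin a → R) :
    (syl P Q a b).mulVec w = 0 ↔ up a b w * P + vp a b w * Q = 0 := by
  constructor
  · intro h
    ext n
    rw [coeff_zero]
    by_cases hn : n < b
    · have := congrFun h (Sum.inl ⟨n, hn⟩)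
      rwa [mulVec_syl] at this
    · by_cases hn' : n < b + a
      · have := congrFun h (Sum.inr ⟨n - b, by omega⟩)
        rw [mulVec_syl] at this
        have h1 : idx a b (Sum.inr ⟨n - b, by omega⟩) = n := by
          show b + (n - b) = n
          omega
        rwa [h1] at this
      · apply coeff_eq_zero_of_degree_lt
        refine (degree_add_le _ _).trans_lt (max_lt ?_ ?_)
        · by_cases hw : up a b w = 0
          · rw [hw, zero_mul, degree_zero]
            exact WithBot.bot_lt_coe _
          refine (degree_mul_le _ _).trans_lt ?_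
          have h2 := degree_up_lt a b w
          have h3 := natDegree_lt_iff_degree_lt hw |>.2 h2
          refine (add_le_add degree_le_natDegree degree_le_natDegree).trans_lt ?_
          have h4 : (up a b w).natDegree + P.natDegree < n := by omega
          exact_mod_cast h4
        · by_cases hw : vp a b w = 0
          · rw [hw, zero_mul, degree_zero]
            exact WithBot.bot_lt_coe _
          refine (degree_mul_le _ _).trans_lt ?_
          have h2 := degree_vp_lt a b w
          have h3 := natDegree_lt_iff_degree_lt hw |>.2 h2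
          refine (add_le_add degree_le_natDegree degree_le_natDegree).trans_lt ?_
          have h4 : (vp a b w).natDegree + Q.natDegree < n := by omega
          exact_mod_cast h4
  · intro h
    funext r
    rw [mulVec_syl, h, coeff_zero]
    rfl

end ring

section field

variable {K : Type u} [Field K]

/-- the kernel elements attached to the multiples of the cofactors -/
noncomputable def lam (P' Q' : K[X]) (a b c : ℕ) : degreeLT K c →ₗ[K] (Fin b ⊕ Fin a → K) where
  toFun h := Sum.elim (fun i => ((h : K[X]) * Q').coeff i) (fun j => - ((h : K[X]) * P').coeff j)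
  map_add' h₁ h₂ := by
    funext r
    rcases r with r | r
    · simp [add_mul]
    · simp [add_mul]
      ring
  map_smul' s h := by
    funext r
    rcases r with r | r
    · simp
    · simp

theorem up_lam {P' Q' : K[X]} {a b c : ℕ} (hQ : Q'.natDegree + c ≤ b) (h : degreeLT K c) :
    up a b (lam P' Q' a b c h) = (h : K[X]) * Q' := by
  ext n
  rw [coeff_up]
  split_ifs with hn
  · rfl
  · symm
    by_cases h0 : (h : K[X]) = 0
    · rw [h0, zero_mul, coeff_zero]
    apply coeff_eq_zero_of_natDegree_lt
    have h1 := mem_degreeLT.1 h.2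
    have h2 := (natDegree_lt_iff_degree_lt h0).2 h1
    have h3 := natDegree_mul_le (p := (h : K[X])) (q := Q')
    omega

theorem vp_lam {P' Q' : K[X]} {a b c : ℕ} (hP : P'.natDegree + c ≤ a) (h : degreeLT K c) :
    vp a b (lam P' Q' a b c h) = - ((h : K[X]) * P') := by
  ext n
  rw [coeff_vp]
  split_ifs with hn
  · rw [coeff_neg]
    rfl
  · symm
    rw [coeff_neg, neg_eq_zero]
    by_cases h0 : (h : K[X]) = 0
    · rw [h0, zero_mul, coeff_zero]
    apply coeff_eq_zero_of_natDegree_lt
    have h1 := mem_degreeLT.1 h.2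
    have h2 := (natDegree_lt_iff_degree_lt h0).2 h1
    have h3 := natDegree_mul_le (p := (h : K[X])) (q := P')
    omega

/-- the nullity of the matrix of Sylvester is the degree of the common factor -/
theorem nullity {P' Q' G : K[X]} {a b c : ℕ} (hG : G ≠ 0) (hcop : IsCoprime P' Q')
    (hP' : P' ≠ 0) (hQ' : Q' ≠ 0)
    (hPn : P'.natDegree + c = a) (hQn : Q'.natDegree + c = b) (hGn : G.natDegree = c) :
    finrank K (LinearMap.ker (syl (P' * G) (Q' * G) a b).mulVecLin) = c := by
  have hPa : (P' * G).natDegree ≤ a := natDegree_mul_le.trans (by omega)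
  have hQb : (Q' * G).natDegree ≤ b := natDegree_mul_le.trans (by omega)
  have hker : LinearMap.ker (syl (P' * G) (Q' * G) a b).mulVecLin =
      LinearMap.range (lam P' Q' a b c) := by
    apply le_antisymm
    · intro w hw
      rw [LinearMap.mem_ker, Matrix.mulVecLin_apply, mem_ker_syl hPa hQb] at hw
      have h1 : up a b w * P' + vp a b w * Q' = 0 := by
        have : (up a b w * P' + vp a b w * Q') * G = 0 := by
          rw [← hw]
          ring
        exact (mul_eq_zero.1 this).resolve_right hG
      have h2 : Q' ∣ up a b w := by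
        have h3 : Q' ∣ P' * up a b w := by
          refine ⟨- vp a b w, ?_⟩
          linear_combination h1
        exact hcop.symm.dvd_of_dvd_mul_left h3
      obtain ⟨h, hh⟩ := h2
      have h4 : vp a b w = - (h * P') := by
        have : Q' * (vp a b w + h * P') = 0 := by
          rw [hh] at h1
          linear_combination h1
        have := (mul_eq_zero.1 this).resolve_left hQ'
        linear_combination this
      have hdeg : h ∈ degreeLT K c := by
        rw [mem_degreeLT]
        by_cases h0 : h = 0
        · rw [h0, degree_zero]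
          exact WithBot.bot_lt_coe _
        rw [← natDegree_lt_iff_degree_lt h0]
        have h5 : up a b w ≠ 0 := by
          rw [hh]
          exact mul_ne_zero hQ' h0
        have h6 := (natDegree_lt_iff_degree_lt h5).2 (degree_up_lt a b w)
        rw [hh, natDegree_mul hQ' h0] at h6
        omega
      refine ⟨⟨h, hdeg⟩, ?_⟩
      funext r
      rcases r with r | r
      · show (h * Q').coeff r = w (Sum.inl r)
        rw [mul_comm, ← hh, coeff_up, dif_pos r.2]
      · show - (h * P').coeff r = w (Sum.inr r)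
        rw [← coeff_neg, ← h4, coeff_vp, dif_pos r.2]
    · rintro _ ⟨h, rfl⟩
      rw [LinearMap.mem_ker, Matrix.mulVecLin_apply, mem_ker_syl hPa hQb, up_lam (by omega),
        vp_lam (by omega)]
      ring
  rw [hker, LinearMap.finrank_range_of_inj]
  · rw [LinearEquiv.finrank_eq (degreeLTEquiv K c), Module.finrank_fin_fun]
  · intro h₁ h₂ h12
    apply Subtype.ext
    have h3 := congrArg (up a b) h12
    rw [up_lam (by omega), up_lam (by omega)] at h3
    exact mul_right_cancel₀ hQ' h3

/-- a complement which makes a matrix invertible -/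
theorem exists_complement {n : Type v} [Fintype n] [DecidableEq n] (M : Matrix n n K) :
    ∃ N : Matrix n n K, (M + N).det ≠ 0 ∧
      finrank K (LinearMap.range N.mulVecLin) ≤ finrank K (LinearMap.ker M.mulVecLin) := by
  set T : (n → K) →ₗ[K] (n → K) := M.mulVecLin with hT
  obtain ⟨S, hS⟩ := Submodule.exists_isCompl (LinearMap.ker T)
  obtain ⟨R, hR⟩ := Submodule.exists_isCompl (LinearMap.range T)
  have h1 : finrank K (LinearMap.ker T) = finrank K R := by
    have h2 := LinearMap.finrank_range_add_finrank_ker T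
    have h3 := Submodule.finrank_add_eq_of_isCompl hR
    omega
  let e : LinearMap.ker T ≃ₗ[K] R := LinearEquiv.ofFinrankEq _ _ h1
  let N : (n → K) →ₗ[K] (n → K) :=
    R.subtype ∘ₗ e.toLinearMap ∘ₗ (Submodule.linearProjOfIsCompl (LinearMap.ker T) S hS)
  refine ⟨LinearMap.toMatrix' N, ?_, ?_⟩
  · have h4 : LinearMap.ker (T + N) = ⊥ := by
      rw [LinearMap.ker_eq_bot']
      intro x hx
      have h5 : T x = - N x := eq_neg_of_add_eq_zero_left hx
      have h6 : N x ∈ R := (e (Submodule.linearProjOfIsCompl (LinearMap.ker T) S hS x)).2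
      have h7 : T x ∈ LinearMap.range T ⊓ R :=
        ⟨⟨x, rfl⟩, by rw [h5]; exact R.neg_mem h6⟩
      rw [hR.inf_eq_bot, Submodule.mem_bot] at h7
      have h8 : N x = 0 := by
        rw [h7] at h5
        exact neg_eq_zero.1 h5.symm
      have h9 : (Submodule.linearProjOfIsCompl (LinearMap.ker T) S hS x) = 0 := by
        have h10 : e (Submodule.linearProjOfIsCompl (LinearMap.ker T) S hS x) = 0 := Subtype.ext h8
        exact (LinearEquiv.map_eq_zero_iff e).1 h10
      have h11 : x ∈ S := (Submodule.linearProjOfIsCompl_apply_eq_zero_iff hS).1 h9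
      have h12 : x ∈ LinearMap.ker T ⊓ S := ⟨h7, h11⟩
      rwa [hS.inf_eq_bot, Submodule.mem_bot] at h12
    have h13 : (M + LinearMap.toMatrix' N).mulVecLin = T + N := by
      rw [Matrix.mulVecLin_add, ← hT]
      congr 1
      exact Matrix.toLin'_toMatrix' N
    intro h0
    obtain ⟨v, hv, hv'⟩ := Matrix.exists_mulVec_eq_zero_iff.2 h0
    apply hv
    have h14 : v ∈ LinearMap.ker (T + N) := by
      rw [← h13]
      exact hv'
    rwa [h4, Submodule.mem_bot] at h14
  · have h15 : (LinearMap.toMatrix' N).mulVecLin = N := Matrix.toLin'_toMatrix' N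
    rw [h15, h1]
    refine (Submodule.finrank_mono (LinearMap.range_comp_le_range _ _)).trans ?_
    rw [Submodule.range_subtype]

theorem nullity_le {n : Type v} [Fintype n] [DecidableEq n] (M N : Matrix n n K)
    (h : (M + N).det ≠ 0) :
    finrank K (LinearMap.ker M.mulVecLin) ≤ finrank K (LinearMap.range N.mulVecLin) := by
  have h1 : LinearMap.ker M.mulVecLin ⊓ LinearMap.ker N.mulVecLin = ⊥ := by
    rw [eq_bot_iff]
    rintro x ⟨hx, hx'⟩
    rw [Submodule.mem_bot]
    by_contra hx0
    apply h
    rw [← Matrix.exists_mulVec_eq_zero_iff]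
    refine ⟨x, hx0, ?_⟩
    rw [Matrix.add_mulVec]
    rw [SetLike.mem_coe, LinearMap.mem_ker, Matrix.mulVecLin_apply] at hx hx'
    rw [hx, hx', add_zero]
  have h2 := Submodule.finrank_sup_add_finrank_inf_eq (LinearMap.ker M.mulVecLin)
    (LinearMap.ker N.mulVecLin)
  rw [h1, finrank_bot, add_zero] at h2
  have h3 := LinearMap.finrank_range_add_finrank_ker N.mulVecLin
  have h4 := Submodule.finrank_le (LinearMap.ker M.mulVecLin ⊔ LinearMap.ker N.mulVecLin)
  omega

/-- semicontinuity of the degree of the common factor of the characteristic polynomials -/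
theorem semicont {V : Type v} [AddCommGroup V] [Module K V]
    [FiniteDimensional K V] {W : Type w} [AddCommGroup W] [Module K W] [FiniteDimensional K W]
    {ι : Type} [Fintype ι] [DecidableEq ι] (φ : (ι → K) →ₗ[K] End K V) (ψ : (ι → K) →ₗ[K] End K W)
    (x₀ : ι → K) (h₁ : (φ x₀).charpoly.coeff 0 ≠ 0) (h₂ : (ψ x₀).charpoly.coeff 0 ≠ 0) :
    ∃ F : MvPolynomial ι K, F ≠ 0 ∧ ∀ y, MvPolynomial.eval y F ≠ 0 →
      (φ y).charpoly.coeff 0 ≠ 0 ∧ (ψ y).charpoly.coeff 0 ≠ 0 ∧
      finrank K (LinearMap.ker (syl (φ y).charpoly (ψ y).charpoly (finrank K V)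
        (finrank K W)).mulVecLin) ≤ finrank K (LinearMap.ker (syl (φ x₀).charpoly (ψ x₀).charpoly
          (finrank K V) (finrank K W)).mulVecLin) := by
  set a := finrank K V
  set b := finrank K W
  let P := LinearMap.polyCharpoly φ (Pi.basisFun K ι)
  let Q := LinearMap.polyCharpoly ψ (Pi.basisFun K ι)
  have hP : ∀ y, P.map (MvPolynomial.eval y) = (φ y).charpoly := fun y =>
    LinearMap.polyCharpoly_map_eq_charpoly φ (Pi.basisFun K ι) y
  have hQ : ∀ y, Q.map (MvPolynomial.eval y) = (ψ y).charpoly := fun y =>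
    LinearMap.polyCharpoly_map_eq_charpoly ψ (Pi.basisFun K ι) y
  have hP0 : ∀ y, MvPolynomial.eval y (P.coeff 0) = (φ y).charpoly.coeff 0 := fun y => by
    rw [← hP, coeff_map]
  have hQ0 : ∀ y, MvPolynomial.eval y (Q.coeff 0) = (ψ y).charpoly.coeff 0 := fun y => by
    rw [← hQ, coeff_map]
  obtain ⟨N, hN, hrank⟩ := exists_complement (syl (φ x₀).charpoly (ψ x₀).charpoly a b)
  refine ⟨(syl P Q a b + N.map MvPolynomial.C).det * (P.coeff 0 * Q.coeff 0), ?_, ?_⟩
  · have h3 : MvPolynomial.eval x₀ ((syl P Q a b + N.map MvPolynomial.C).det *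
        (P.coeff 0 * Q.coeff 0)) ≠ 0 := by
      rw [map_mul, map_mul, hP0, hQ0]
      refine mul_ne_zero ?_ (mul_ne_zero h₁ h₂)
      rw [RingHom.map_det, RingHom.mapMatrix_apply, Matrix.map_add _ (map_add _), syl_map, hP, hQ,
        Matrix.map_map]
      have : (MvPolynomial.eval x₀) ∘ (MvPolynomial.C : K → MvPolynomial ι K) = id := by
        funext c
        exact MvPolynomial.eval_C c
      rwa [this, Matrix.map_id]
    intro h0
    rw [h0, map_zero] at h3
    exact h3 rfl
  · intro y hy
    rw [map_mul, map_mul, hP0, hQ0] at hy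
    refine ⟨left_ne_zero_of_mul (right_ne_zero_of_mul hy),
      right_ne_zero_of_mul (right_ne_zero_of_mul hy), ?_⟩
    have hy' := left_ne_zero_of_mul hy
    rw [RingHom.map_det, RingHom.mapMatrix_apply, Matrix.map_add _ (map_add _), syl_map, hP, hQ,
      Matrix.map_map] at hy'
    have : (MvPolynomial.eval y) ∘ (MvPolynomial.C : K → MvPolynomial ι K) = id := by
      funext c
      exact MvPolynomial.eval_C c
    rw [this, Matrix.map_id] at hy'
    exact (nullity_le _ _ hy').trans hrank

end field

end Pool.Agent.H938.CC
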